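import Mathlib
import Pool.Agent.N732.GV.Main

set_option autoImplicit false
set_option linter.unusedSectionVars false

/-! # Hit windows and empty windows from the sums of the conditional probabilities -/

open MeasureTheory Filter Set
open scoped ENNReal Topology

namespace Pool.Agent.N317.SL

open Pool.Agent.R528.RM Pool.Agent.N732.GV

variable {Ω : Type} {m0 : MeasurableSpace Ω} {μ : Measure Ω} [IsProbabilityMeasure μ]
  {ℱ : Filtration ℕ m0} {A : ℕ → Set Ω}

/-- the violations of the lower bound `l` -/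
def VL (μ : Measure Ω) (ℱ : Filtration ℕ m0) (A : ℕ → Set Ω) (l : ℕ → ℝ) (n : ℕ) : Set Ω :=
  {ω | dens μ ℱ A n ω < l n}

lemma VL_meas (l : ℕ → ℝ) (n : ℕ) : MeasurableSet[ℱ n] (VL μ ℱ A l n) := by
  have h1 : Measurable[ℱ n] (dens μ ℱ A n) := (dens_meas n).measurable
  exact h1 measurableSet_Iio

/-- upper bound for the probability of an empty window -/
lemma empty_upper (hA : ∀ n, MeasurableSet[ℱ n] (A n)) (l : ℕ → ℝ) (t g : ℕ) :
    μ.real (Emp A t g \ WV (VL μ ℱ A l) t g) ≤ Real.exp (-∑ i ∈ Finset.range g, l (t + i)) := by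
  induction g with
  | zero =>
    simp only [Finset.range_zero, Finset.sum_empty, neg_zero, Real.exp_zero]
    exact measureReal_le_one
  | succ g ih =>
    set B := Emp A t g \ WV (VL μ ℱ A l) t g with hB
    have hBm : MeasurableSet[ℱ (t + g)] B :=
      MeasurableSet.diff (Emp_meas hA t g) (WV_meas (fun n => VL_meas l n) t g)
    have hVm : MeasurableSet[ℱ (t + g)] (VL μ ℱ A l (t + g)) := VL_meas l (t + g)
    have h1 := lower_meas (μ := μ) hA (t + g) (B := B \ VL μ ℱ A l (t + g)) (hBm.diff hVm) (l := l (t + g))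
      (fun ω hω => not_lt.1 hω.2)
    have h2 : Emp A t (g + 1) \ WV (VL μ ℱ A l) t (g + 1) ⊆ (B \ VL μ ℱ A l (t + g)) \ A (t + g + 1) := by
      rintro ω ⟨h3, h4⟩
      rw [Emp_succ] at h3
      rw [WV_last] at h4
      exact ⟨⟨⟨h3.1, fun h => h4 (Or.inl h)⟩, fun h => h4 (Or.inr h)⟩, h3.2⟩
    have hA0 : MeasurableSet (A (t + g + 1)) := ℱ.le _ _ (hA _)
    have h3 := measureReal_inter_add_sdiff (μ := μ) (s := B \ VL μ ℱ A l (t + g)) hA0
    have h5 : μ.real (B \ VL μ ℱ A l (t + g)) ≤ μ.real B := measureReal_mono sdiff_subset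
    have h6 : μ.real (Emp A t (g + 1) \ WV (VL μ ℱ A l) t (g + 1)) ≤
        μ.real ((B \ VL μ ℱ A l (t + g)) \ A (t + g + 1)) := measureReal_mono h2
    have h7 : 1 - l (t + g) ≤ Real.exp (-l (t + g)) := by
      have := Real.add_one_le_exp (-l (t + g))
      linarith
    have h8 : 0 ≤ μ.real (B \ VL μ ℱ A l (t + g)) := measureReal_nonneg
    rw [Finset.sum_range_succ, neg_add, Real.exp_add, mul_comm]
    calc _ ≤ (1 - l (t + g)) * μ.real (B \ VL μ ℱ A l (t + g)) := by linarith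
      _ ≤ Real.exp (-l (t + g)) * μ.real (B \ VL μ ℱ A l (t + g)) := mul_le_mul_of_nonneg_right h7 h8
      _ ≤ Real.exp (-l (t + g)) * μ.real B := mul_le_mul_of_nonneg_left h5 (Real.exp_pos _).le
      _ ≤ _ := mul_le_mul_of_nonneg_left ih (Real.exp_pos _).le

/-- **all late windows are hit** -/
theorem hits (hA : ∀ n, MeasurableSet[ℱ n] (A n)) {l : ℕ → ℝ}
    (hv : ∀ᵐ ω ∂μ, ∀ᶠ n : ℕ in atTop, l n ≤ dens μ ℱ A n ω) {H : ℕ → ℕ} {c : ℝ} (hc : 1 < c)
    (hs : ∀ᶠ x : ℕ in atTop, c * Real.log x ≤ ∑ i ∈ Finset.range (H x), l (x + i)) :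
    ∀ᵐ ω ∂μ, ∀ᶠ x : ℕ in atTop, ∃ r, x < r ∧ r ≤ x + H x ∧ ω ∈ A r := by
  have hsum : Summable (fun x : ℕ => (x : ℝ) ^ (-c)) := Real.summable_nat_rpow.2 (by linarith)
  have h1 := bc_real (μ := μ) hsum (s := fun x => Emp A x (H x) \ WV (VL μ ℱ A l) x (H x)) (by
    filter_upwards [hs, eventually_gt_atTop 0] with x hx hx0
    have hx0' : (0 : ℝ) < x := by exact_mod_cast hx0
    refine (empty_upper hA l x (H x)).trans ?_
    rw [Real.rpow_def_of_pos hx0']
    apply Real.exp_le_exp.2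
    linarith)
  filter_upwards [h1, hv] with ω hω hω2
  obtain ⟨n₀, hn₀⟩ := eventually_atTop.1 hω2
  filter_upwards [hω, eventually_ge_atTop n₀] with x hx hx0
  by_contra hcon
  apply hx
  refine ⟨fun r hr1 hr2 hr => hcon ⟨r, hr1, hr2, hr⟩, ?_⟩
  rintro ⟨n, h2, h3, h4⟩
  exact absurd h4 (not_lt.2 (hn₀ n (by omega)))

/-- **long empty windows** in all dyadic blocks -/
theorem empties (hA : ∀ n, MeasurableSet[ℱ n] (A n)) {u : ℕ → ℝ} (hu0 : ∀ n, 0 ≤ u n) (hu1 : ∀ n, u n ≤ 1)
    (hv : ∀ᵐ ω ∂μ, ∀ᶠ n : ℕ in atTop, dens μ ℱ A n ω ≤ u n) {lam θ : ℝ} (hlam : 0 < lam) (hθ : θ < 1)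
    (hs : ∀ᶠ j : ℕ in atTop, ∀ t, 2 ^ j ≤ t → t + gg lam j < 2 ^ (j + 1) →
      Real.exp (-(θ * (j * Real.log 2))) ≤ ∏ i ∈ Finset.range (gg lam j), (1 - u (t + i))) :
    ∀ᵐ ω ∂μ, ∀ᶠ j : ℕ in atTop, ∃ t, 2 ^ j ≤ t ∧ t + gg lam j < 2 ^ (j + 1) ∧ ω ∈ Emp A t (gg lam j) := by
  classical
  have hl2 : 0 < Real.log 2 := Real.log_pos (by norm_num)
  obtain ⟨η, hη, hη2⟩ : ∃ η : ℝ, 0 < η ∧ θ ≤ 1 - 2 * η ∧ η < 1 / 2 := by
    refine ⟨min ((1 - θ) / 2) (1 / 4), lt_min (by linarith) (by norm_num), ?_, ?_⟩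
    · have := min_le_left ((1 - θ) / 2) (1 / 4)
      linarith
    · have := min_le_right ((1 - θ) / 2) (1 / 4)
      linarith
  set M : ℕ → ℕ := fun j => gg lam j with hM
  have hMpos : ∀ j, 0 < M j := fun j => gg_pos hlam j
  set q : ℕ → ℕ := fun j => 2 ^ j / M j with hq
  set nn : ℕ → ℕ := fun j => q j - 2 with hnn
  set s : ℕ → ℕ → ℕ := fun j k => (q j + 1 + k) * M j with hs'
  set D : ℕ → ℕ → Set Ω := fun j k => if k < nn j then Emp A (s j k) (gg lam j) ∪ WV (VU μ ℱ A u) (s j k) (gg lam j) else ∅ with hD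
  have hsmono : ∀ j, Monotone (s j) := fun j a b hab => Nat.mul_le_mul_right _ (by omega)
  have hDm : ∀ j k, MeasurableSet[ℱ (s j (k + 1))] (D j k) := by
    intro j k
    simp only [hD]
    split_ifs
    · have h1 : s j k + gg lam j ≤ s j (k + 1) := by
        simp only [hs', hM]
        have e : (q j + 1 + (k + 1)) * gg lam j = (q j + 1 + k) * gg lam j + gg lam j := by ring
        rw [e]
      exact MeasurableSet.union (ℱ.mono h1 _ (Emp_meas hA _ _)) (ℱ.mono h1 _ (WV_meas (fun n => VU_meas _ n) _ _))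
    · exact @MeasurableSet.empty _ (ℱ (s j (k + 1)))
  have hs1 : ∀ j k, 2 ^ j ≤ s j k := by
    intro j k
    simp only [hs', hq]
    have h1 : 2 ^ j < (2 ^ j / M j + 1) * M j := by
      have := Nat.lt_mul_div_succ (2 ^ j) (hMpos j)
      rw [mul_comm] at this
      exact this
    have h2 : (2 ^ j / M j + 1) * M j ≤ (2 ^ j / M j + 1 + k) * M j := Nat.mul_le_mul_right _ (by omega)
    omega
  have hs2 : ∀ j k, k < nn j → s j k + gg lam j < 2 ^ (j + 1) := by
    intro j k hk
    simp only [hnn] at hk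
    have h1 : s j k + M j * 2 ≤ 2 * (q j * M j) := by
      simp only [hs']
      have h3 : q j + 1 + k + 2 ≤ 2 * q j := by omega
      have h4 := Nat.mul_le_mul_right (M j) h3
      nlinarith
    have h2 : q j * M j ≤ 2 ^ j := Nat.div_mul_le_self _ _
    have h4 := hMpos j
    have h5 : gg lam j = M j := rfl
    rw [pow_succ, h5]
    omega
  have hMsmall : ∀ᶠ j : ℕ in atTop, (M j : ℝ) ≤ Real.exp (η * (j * Real.log 2)) := by
    have h1 := gg_sq hlam
    have h2 : Tendsto (fun j : ℕ => (j : ℝ) ^ 2 / Real.exp (η * (j * Real.log 2))) atTop (𝓝 0) := by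
      have h3 := (Real.tendsto_pow_mul_exp_neg_atTop_nhds_zero 2).comp
        ((tendsto_natCast_atTop_atTop (R := ℝ)).atTop_mul_const (show 0 < η * Real.log 2 by positivity))
      have h4 := h3.const_mul ((η * Real.log 2) ^ 2)⁻¹
      rw [mul_zero] at h4
      refine h4.congr fun j => ?_
      simp only [Function.comp]
      rw [Real.exp_neg, show (j : ℝ) * (η * Real.log 2) = η * (j * Real.log 2) by ring]
      field_simp
    have h3 := h1.mul h2
    rw [mul_zero] at h3
    filter_upwards [h3.eventually (gt_mem_nhds one_pos), eventually_gt_atTop 0] with j hj hj0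
    have hj0' : (0 : ℝ) < j := by exact_mod_cast hj0
    have e : (gg lam j : ℝ) / (j : ℝ) ^ 2 * ((j : ℝ) ^ 2 / Real.exp (η * (j * Real.log 2))) =
        gg lam j / Real.exp (η * (j * Real.log 2)) := by
      field_simp
    rw [e, div_lt_one (Real.exp_pos _)] at hj
    exact hj.le
  have hbc : ∀ᵐ ω ∂μ, ∀ᶠ j : ℕ in atTop, ω ∉ {ω | ∀ k, k < nn j → ω ∉ D j k} := by
    have hsum : Summable (fun j : ℕ => 2 * (Real.exp (-(η * Real.log 2))) ^ j) := by
      apply Summable.mul_left
      apply summable_geometric_of_lt_one (Real.exp_pos _).le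
      rw [Real.exp_lt_one_iff]
      have : 0 < η * Real.log 2 := by positivity
      linarith
    refine bc_real hsum ?_
    have hlarge : ∀ᶠ j : ℕ in atTop, 6 ≤ Real.exp ((1 - η) * (j * Real.log 2)) := by
      have h1 : Tendsto (fun j : ℕ => (1 - η) * ((j : ℝ) * Real.log 2)) atTop atTop :=
        (tendsto_natCast_atTop_atTop.atTop_mul_const hl2).const_mul_atTop (by linarith [hη2.2])
      exact (Real.tendsto_exp_atTop.comp h1).eventually_ge_atTop 6
    filter_upwards [hs, hMsmall, hlarge] with j hj hjM hj6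
    have h1 := trials (μ := μ) (hsmono j) (hDm j) (p := Real.exp (-(θ * (j * Real.log 2)))) (n := nn j) (by
      intro k hk C hC
      simp only [hD, if_pos hk]
      have h2 := empty_lower (μ := μ) hA (u := u) hu0 hu1 (s j k) hC (gg lam j)
      exact le_trans (mul_le_mul_of_nonneg_right (hj _ (hs1 j k) (hs2 j k hk)) measureReal_nonneg) h2)
    refine h1.trans ?_
    set b : ℝ := j * Real.log 2 with hb
    have hb0 : 0 ≤ b := by positivity
    have hMR : (0 : ℝ) < M j := by exact_mod_cast hMpos j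
    have h2j : (2 : ℝ) ^ j = Real.exp b := by
      rw [hb, Real.exp_nat_mul, Real.exp_log (by norm_num)]
    have h3 : Real.exp ((1 - η) * b) ≤ (2 : ℝ) ^ j / M j := by
      rw [le_div_iff₀ hMR, h2j]
      calc Real.exp ((1 - η) * b) * M j ≤ Real.exp ((1 - η) * b) * Real.exp (η * b) :=
            mul_le_mul_of_nonneg_left hjM (Real.exp_pos _).le
        _ = Real.exp b := by rw [← Real.exp_add]; congr 1; ring
    have h4 : (2 : ℝ) ^ j / M j - 1 ≤ q j := by
      have h5 : 2 ^ j < (q j + 1) * M j := by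
        have := Nat.lt_mul_div_succ (2 ^ j) (hMpos j)
        rw [mul_comm] at this
        exact this
      have h6 : (2 : ℝ) ^ j < ((q j : ℝ) + 1) * M j := by exact_mod_cast h5
      have h7 : (2 : ℝ) ^ j / M j < (q j : ℝ) + 1 := by rwa [div_lt_iff₀ hMR]
      linarith
    have h5 : (q j : ℝ) - 2 ≤ nn j := by
      simp only [hnn]
      have : q j ≤ (q j - 2) + 2 := by omega
      have h6 : (q j : ℝ) ≤ ((q j - 2 : ℕ) : ℝ) + 2 := by exact_mod_cast this
      linarith
    have h6 : Real.exp ((1 - η) * b) / 2 ≤ nn j := by linarith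
    have h7 : Real.exp (η * b) / 2 ≤ nn j * Real.exp (-(θ * b)) := by
      calc Real.exp (η * b) / 2 ≤ Real.exp ((1 - η) * b) / 2 * Real.exp (-(θ * b)) := by
            rw [div_mul_eq_mul_div, ← Real.exp_add]
            have h8 : η * b ≤ (1 - η) * b + -(θ * b) := by
              have := mul_le_mul_of_nonneg_right hη2.1 hb0
              nlinarith
            have h9 := Real.exp_le_exp.2 h8
            linarith
        _ ≤ _ := mul_le_mul_of_nonneg_right h6 (Real.exp_pos _).le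
    have h8 : Real.exp (-(nn j * Real.exp (-(θ * b)))) ≤ Real.exp (-(Real.exp (η * b) / 2)) := Real.exp_le_exp.2 (by linarith)
    have h9 : Real.exp (-(Real.exp (η * b) / 2)) ≤ 2 * Real.exp (-(η * b)) := by
      have h10 : Real.exp (η * b) / 2 ≤ Real.exp (Real.exp (η * b) / 2) := by
        have := Real.add_one_le_exp (Real.exp (η * b) / 2)
        linarith
      rw [Real.exp_neg, Real.exp_neg]
      have h11 : (Real.exp (Real.exp (η * b) / 2))⁻¹ ≤ (Real.exp (η * b) / 2)⁻¹ := inv_anti₀ (by positivity) h10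
      refine h11.trans (le_of_eq ?_)
      rw [inv_div]
      ring
    have h10 : (Real.exp (-(η * Real.log 2))) ^ j = Real.exp (-(η * b)) := by
      rw [← Real.exp_nat_mul]
      congr 1
      rw [hb]
      ring
    rw [h10]
    exact h8.trans h9
  filter_upwards [hbc, hv] with ω hω1 hω2
  obtain ⟨n₀, hn₀⟩ := eventually_atTop.1 hω2
  filter_upwards [hω1, eventually_ge_atTop n₀] with j hj hjn
  simp only [not_forall, not_not, Set.mem_ofPred_eq] at hj
  obtain ⟨k, hk, hω⟩ := hj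
  refine ⟨s j k, hs1 j k, hs2 j k hk, ?_⟩
  simp only [hD, if_pos hk] at hω
  rcases hω with h | h
  · exact h
  · exfalso
    obtain ⟨n, h1, h2, h3⟩ := h
    have h4 := hs1 j k
    have h5 : j < 2 ^ j := Nat.lt_two_pow_self
    exact absurd h3 (not_lt.2 (hn₀ n (by omega)))

end Pool.Agent.N317.SL
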