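import Mathlib
import Pool.Agent.N740.HK.Gr3
import Pool.Agent.N317.SL.Prob

set_option autoImplicit false
set_option linter.unusedSectionVars false

/-! # The maximal gap in models sieved by the primes up to `(log n)^θ` -/

open MeasureTheory Filter Set
open scoped ENNReal Topology

namespace Pool.Agent.N317.SL

open Pool.Agent.R528.RM Pool.Agent.N732.GV Pool.Agent.N740.HK

variable {Ω : Type} {m0 : MeasurableSpace Ω} {μ : Measure Ω} [IsProbabilityMeasure μ]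
  {ℱ : Filtration ℕ m0} {A : ℕ → Set Ω}

lemma sum_range_Ioc (f : ℕ → ℝ) (x H : ℕ) :
    ∑ m ∈ Finset.Ioc x (x + H), f (m - 1) = ∑ i ∈ Finset.range H, f (x + i) := by
  induction H with
  | zero => simp
  | succ H ih =>
    rw [Finset.sum_range_succ, ← ih, ← add_assoc, ← Finset.insert_Ioc_right_eq_Ioc_add_one (by omega),
      Finset.sum_insert (by simp), show x + H + 1 - 1 = x + H by omega]
    ring

/-- the bound of the sieve -/
def VLB (C0 K0 b : ℕ) : Prop := ∀ (z : ℕ → ℕ) (Z : ℕ), Monotone z → 1 ≤ Z → ∀ x H : ℕ,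
  z (x + H) ≤ Z → |∑ m ∈ Finset.Ioc x (x + H), DF (z m) m| ≤
    (1 / 2 : ℝ) ^ b * H + ((Z : ℝ) + 1) * (((Z : ℝ) + 3) * K0 * (Z : ℝ) ^ (4 * (C0 * b) + 1))

/-- the error term -/
noncomputable def Er (C0 K0 b : ℕ) (θ L : ℝ) : ℝ := 8 * K0 * (2 * L) ^ (θ * (4 * (C0 * b) + 3 : ℕ))

lemma df_bound {z : ℕ → ℕ} (hz : Monotone z) {θ : ℝ} (hθ : 0 ≤ θ)
    (hzθ : ∀ᶠ n : ℕ in atTop, (z n : ℝ) ≤ Real.log n ^ θ) {C0 K0 b : ℕ} (hv : VLB C0 K0 b) :
    ∀ᶠ y : ℕ in atTop, ∀ x H : ℕ, x + H = y → ∀ L : ℝ, 1 ≤ L → Real.log y ≤ 2 * L →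
      |∑ m ∈ Finset.Ioc x (x + H), DF (z m) m| ≤ (1 / 2 : ℝ) ^ b * H + Er C0 K0 b θ L := by
  filter_upwards [hzθ] with y hy x H hxy L hL hyL
  have hly : 0 ≤ Real.log (y : ℝ) := Real.log_natCast_nonneg y
  set Z : ℕ := ⌊(2 * L) ^ θ⌋₊ with hZ
  have h2L : (1 : ℝ) ≤ (2 * L) ^ θ := Real.one_le_rpow (by linarith) hθ
  have hZ1 : 1 ≤ Z := by
    rw [hZ, Nat.one_le_floor_iff]
    exact h2L
  have hZ2 : (Z : ℝ) ≤ (2 * L) ^ θ := Nat.floor_le (by linarith)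
  have hzy : z (x + H) ≤ Z := by
    rw [hxy, hZ]
    apply Nat.le_floor
    exact hy.trans (Real.rpow_le_rpow hly hyL hθ)
  refine (hv z Z hz hZ1 x H hzy).trans (add_le_add le_rfl ?_)
  have hZr : (1 : ℝ) ≤ Z := by exact_mod_cast hZ1
  have h1 : ((Z : ℝ) + 1) * (((Z : ℝ) + 3) * K0 * (Z : ℝ) ^ (4 * (C0 * b) + 1)) ≤
      (2 * Z) * ((4 * Z) * K0 * (Z : ℝ) ^ (4 * (C0 * b) + 1)) := by
    gcongr <;> linarith
  have h2 : (2 * Z) * ((4 * Z) * K0 * (Z : ℝ) ^ (4 * (C0 * b) + 1)) = 8 * K0 * (Z : ℝ) ^ (4 * (C0 * b) + 3) := by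
    rw [show 4 * (C0 * b) + 3 = (4 * (C0 * b) + 1) + 2 by ring, pow_add]
    ring
  have h3 : (Z : ℝ) ^ (4 * (C0 * b) + 3) ≤ (2 * L) ^ (θ * (4 * (C0 * b) + 3 : ℕ)) := by
    calc (Z : ℝ) ^ (4 * (C0 * b) + 3) ≤ ((2 * L) ^ θ) ^ (4 * (C0 * b) + 3) := pow_le_pow_left₀ (by positivity) hZ2 _
      _ = _ := by rw [← Real.rpow_natCast, ← Real.rpow_mul (by linarith)]
  unfold Er
  calc _ ≤ 8 * K0 * (Z : ℝ) ^ (4 * (C0 * b) + 3) := h1.trans h2.le
    _ ≤ _ := mul_le_mul_of_nonneg_left h3 (by positivity)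

lemma Er_small (C0 K0 b : ℕ) {θ : ℝ} (hs : θ * (4 * (C0 * b) + 3 : ℕ) < 2) {ε : ℝ} (hε : 0 < ε) :
    ∀ᶠ L : ℝ in atTop, Er C0 K0 b θ L ≤ ε * L ^ 2 := by
  set s : ℝ := θ * (4 * (C0 * b) + 3 : ℕ) with hs'
  have h1 : Tendsto (fun L : ℝ => 8 * (K0 : ℝ) * (2 : ℝ) ^ s * L ^ (-(2 - s))) atTop (𝓝 (8 * (K0 : ℝ) * (2 : ℝ) ^ s * 0)) :=
    (tendsto_rpow_neg_atTop (by linarith)).const_mul _
  rw [mul_zero] at h1
  filter_upwards [h1.eventually (gt_mem_nhds hε), eventually_gt_atTop 0] with L hL hL0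
  have e : Er C0 K0 b θ L = 8 * (K0 : ℝ) * (2 : ℝ) ^ s * L ^ (-(2 - s)) * L ^ 2 := by
    unfold Er
    rw [Real.mul_rpow (by norm_num) hL0.le, ← hs', show -(2 - s) = s - 2 by ring, Real.rpow_sub hL0,
      show (2 : ℝ) = ((2 : ℕ) : ℝ) by norm_num, Real.rpow_natCast]
    field_simp
  rw [e]
  exact mul_le_mul_of_nonneg_right hL.le (by positivity)

/-- the sum over a window, from below -/
lemma sum_lower {z : ℕ → ℕ} (hz : Monotone z) {θ : ℝ} (hθ : 0 ≤ θ)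
    (hzθ : ∀ᶠ n : ℕ in atTop, (z n : ℝ) ≤ Real.log n ^ θ) {C0 K0 b : ℕ} (hv : VLB C0 K0 b)
    (hs : θ * (4 * (C0 * b) + 3 : ℕ) < 2) {lam c : ℝ} (hlam : 0 < lam) (hc : c < lam * (1 - (1 / 2 : ℝ) ^ b)) (hc0 : 0 < c) :
    ∀ᶠ x : ℕ in atTop, c * Real.log x ≤ ∑ i ∈ Finset.range ⌈lam * Real.log x ^ 2⌉₊, rg z (x + i) := by
  set β : ℝ := (1 / 2 : ℝ) ^ b with hβ
  have hβ1 : β ≤ 1 := pow_le_one₀ (by norm_num) (by norm_num)
  set ε : ℝ := (lam * (1 - β) - c) / 2 with hε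
  have hε0 : 0 < ε := by linarith
  have h1 := (Er_small C0 K0 b hs hε0)
  have h2 : ∀ᶠ L : ℝ in atTop, c * Real.log 2 * L ≤ ε * L ^ 2 := by
    filter_upwards [eventually_ge_atTop (c * Real.log 2 / ε), eventually_ge_atTop 0] with L hL hL0
    rw [div_le_iff₀ hε0] at hL
    nlinarith
  have h3 : ∀ᶠ X : ℝ in atTop, lam * Real.log X ^ 2 + 1 ≤ X := by
    have h4 := (Real.isLittleO_pow_log_id_atTop (n := 2)).def (show (0 : ℝ) < 1 / (2 * lam) by positivity)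
    filter_upwards [h4, eventually_ge_atTop 2] with x hx hx0
    simp only [id, Real.norm_eq_abs] at hx
    rw [abs_of_nonneg (by positivity), abs_of_nonneg (by linarith)] at hx
    have : lam * Real.log x ^ 2 ≤ x / 2 := by
      calc lam * Real.log x ^ 2 ≤ lam * (1 / (2 * lam) * x) := mul_le_mul_of_nonneg_left hx hlam.le
        _ = x / 2 := by field_simp
    linarith
  have hlog := tendsto_logN
  have hy : Tendsto (fun x : ℕ => x + ⌈lam * Real.log x ^ 2⌉₊) atTop atTop :=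
    tendsto_atTop_mono (fun x => Nat.le_add_right _ _) tendsto_id
  filter_upwards [hlog.eventually h1, hlog.eventually h2, tendsto_natCast_atTop_atTop.eventually h3,
    hy.eventually (df_bound hz hθ hzθ hv), hlog.eventually_ge_atTop 1, eventually_ge_atTop 2] with x h1 h2 h3 h4 h5 h6
  set L := Real.log x with hL
  set H := ⌈lam * L ^ 2⌉₊ with hH
  have hx2 : (2 : ℝ) ≤ x := by exact_mod_cast h6
  have hH1 : lam * L ^ 2 ≤ H := Nat.le_ceil _
  have hH2 : (H : ℝ) ≤ x := by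
    have : (H : ℝ) < lam * L ^ 2 + 1 := Nat.ceil_lt_add_one (by positivity)
    linarith
  have hlog2 : Real.log ((x + H : ℕ) : ℝ) ≤ L + Real.log 2 := by
    rw [hL, ← Real.log_mul (by linarith) (by norm_num)]
    apply Real.log_le_log (by push_cast; positivity)
    push_cast
    linarith
  have hl2 : Real.log 2 < 1 := by
    have := Real.log_two_lt_d9
    linarith
  have hl20 : 0 < Real.log 2 := Real.log_pos (by norm_num)
  have h7 := h4 x H rfl L h5 (by linarith)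
  have h8 := (rg_window z h6 H).1
  rw [sum_range_Ioc] at h8
  refine le_trans ?_ h8
  have hlp : 0 < Real.log ((x + H : ℕ) : ℝ) := Real.log_pos (by
    push_cast
    have : (0 : ℝ) ≤ H := Nat.cast_nonneg _
    linarith)
  rw [le_div_iff₀ hlp]
  have h9 := (abs_le.1 h7).1
  have h10 : c * L * Real.log ((x + H : ℕ) : ℝ) ≤ c * L * (L + Real.log 2) :=
    mul_le_mul_of_nonneg_left hlog2 (by positivity)
  have h11 : lam * L ^ 2 * (1 - β) ≤ H * (1 - β) := mul_le_mul_of_nonneg_right hH1 (by linarith)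
  have h12 : lam * (1 - β) = c + 2 * ε := by rw [hε]; ring
  nlinarith

/-- the sum over a window, from above -/
lemma sum_upper {z : ℕ → ℕ} (hz : Monotone z) {θ : ℝ} (hθ : 0 ≤ θ)
    (hzθ : ∀ᶠ n : ℕ in atTop, (z n : ℝ) ≤ Real.log n ^ θ) {C0 K0 b : ℕ} (hv : VLB C0 K0 b)
    (hs : θ * (4 * (C0 * b) + 3 : ℕ) < 2) {lam c : ℝ} (hlam : 0 < lam) (hc : lam * (1 + (1 / 2 : ℝ) ^ b) < c) :
    ∀ᶠ j : ℕ in atTop, ∀ t, 2 ^ j ≤ t → t + gg lam j < 2 ^ (j + 1) →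
      ∑ i ∈ Finset.range (gg lam j), rg z (t + i) ≤ c * (j * Real.log 2) := by
  set β : ℝ := (1 / 2 : ℝ) ^ b with hβ
  have hβ0 : 0 < β := by positivity
  set ε : ℝ := (c - lam * (1 + β)) / 2 with hε
  have hε0 : 0 < ε := by linarith
  have hl20 : 0 < Real.log 2 := Real.log_pos (by norm_num)
  have h1 := (Er_small C0 K0 b hs hε0)
  have hb : Tendsto (fun j : ℕ => (j : ℝ) * Real.log 2) atTop atTop :=
    tendsto_natCast_atTop_atTop.atTop_mul_const hl20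
  have h2 : ∀ᶠ j : ℕ in atTop, (gg lam j : ℝ) * (1 + β) ≤ (lam * (1 + β) + ε) * (j * Real.log 2) ^ 2 := by
    have h3 := (gg_sq hlam).mul_const (1 + β)
    have h4 : lam * Real.log 2 ^ 2 * (1 + β) < (lam * (1 + β) + ε) * Real.log 2 ^ 2 := by
      have : 0 < ε * Real.log 2 ^ 2 := by positivity
      nlinarith
    filter_upwards [h3.eventually (gt_mem_nhds h4), eventually_gt_atTop 0] with j hj hj0
    have hj0' : (0 : ℝ) < j := by exact_mod_cast hj0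
    rw [div_mul_eq_mul_div, div_lt_iff₀ (by positivity)] at hj
    nlinarith
  have hpow : Tendsto (fun j : ℕ => 2 ^ j) atTop (atTop : Filter ℕ) := tendsto_pow_atTop_atTop_of_one_lt (by norm_num)
  obtain ⟨y0, hy0⟩ := eventually_atTop.1 (df_bound hz hθ hzθ hv)
  filter_upwards [hb.eventually h1, h2, hpow.eventually_ge_atTop y0, hb.eventually_ge_atTop 1,
    eventually_ge_atTop 1] with j h1 h2 h3 h4 h5 t ht htg
  set B : ℝ := j * Real.log 2 with hB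
  set H := gg lam j with hH
  have h2j : (2 : ℝ) ^ j = Real.exp B := by
    rw [hB, Real.exp_nat_mul, Real.exp_log (by norm_num)]
  have ht2 : 2 ≤ t := le_trans (by
    calc 2 = 2 ^ 1 := by norm_num
      _ ≤ 2 ^ j := Nat.pow_le_pow_right (by norm_num) h5) ht
  have htr : (2 : ℝ) ^ j ≤ t := by exact_mod_cast ht
  have hlt : B ≤ Real.log t := by
    rw [← Real.log_exp B, ← h2j]
    exact Real.log_le_log (by positivity) htr
  have hly : Real.log ((t + H : ℕ) : ℝ) ≤ 2 * B := by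
    have h6 : ((t + H : ℕ) : ℝ) ≤ (2 : ℝ) ^ (j + 1) := by
      have : t + H ≤ 2 ^ (j + 1) := htg.le
      exact_mod_cast this
    have h7 := Real.log_le_log (by
      have : 0 < t + H := by omega
      exact_mod_cast this) h6
    rw [Real.log_pow] at h7
    refine h7.trans ?_
    rw [hB]
    push_cast
    have hj1 : (1 : ℝ) ≤ j := by exact_mod_cast h5
    nlinarith
  have h7 := hy0 (t + H) (by omega) t H rfl B h4 hly
  have h8 := (rg_window z ht2 H).2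
  rw [sum_range_Ioc] at h8
  refine h8.trans ?_
  have hlp : 0 < Real.log (t : ℝ) := by linarith
  rw [div_le_iff₀ hlp]
  have h9 := (abs_le.1 h7).2
  have hc0 : 0 < c := by
    have : 0 < lam * (1 + β) := by positivity
    linarith
  have h10 : c * B * B ≤ c * B * Real.log t := mul_le_mul_of_nonneg_left hlt (by positivity)
  have h12 : c = lam * (1 + β) + 2 * ε := by rw [hε]; ring
  have h13 : c * B * B = (lam * (1 + β) + ε) * B ^ 2 + ε * B ^ 2 := by rw [h12]; ring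
  linarith

lemma rg_tendsto {z : ℕ → ℕ} {θ : ℝ} (hθ : 0 ≤ θ) (hθ1 : θ < 1)
    (hzθ : ∀ᶠ n : ℕ in atTop, (z n : ℝ) ≤ Real.log n ^ θ) : Tendsto (rg z) atTop (𝓝 0) := by
  have hlog1 : Tendsto (fun n : ℕ => Real.log n) atTop atTop := tendsto_logN
  have h1 : Tendsto (fun L : ℝ => (2 + (2 * L) ^ θ) / L) atTop (𝓝 0) := by
    have h2 : Tendsto (fun L : ℝ => 2 * L⁻¹ + 2 ^ θ * L ^ (-(1 - θ))) atTop (𝓝 (2 * 0 + 2 ^ θ * 0)) :=
      (tendsto_inv_atTop_zero.const_mul 2).add ((tendsto_rpow_neg_atTop (by linarith)).const_mul _)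
    rw [mul_zero, mul_zero, add_zero] at h2
    refine h2.congr' ?_
    filter_upwards [eventually_gt_atTop 0] with L hL
    rw [Real.mul_rpow (by norm_num) hL.le, show -(1 - θ) = θ - 1 by ring, Real.rpow_sub hL, Real.rpow_one]
    field_simp
  refine squeeze_zero' (Eventually.of_forall fun n => rg_nonneg z n) ?_ (h1.comp hlog1)
  filter_upwards [(tendsto_add_atTop_nat 1).eventually hzθ, hlog1.eventually_ge_atTop 1, eventually_ge_atTop 2] with n hn hn1 hn2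
  have hn2' : (2 : ℝ) ≤ n := by exact_mod_cast hn2
  have hL0 : 0 < Real.log n := by linarith
  have hlog2 : Real.log ((n + 1 : ℕ) : ℝ) ≤ 2 * Real.log n := by
    have : ((n + 1 : ℕ) : ℝ) ≤ (n : ℝ) ^ 2 := by
      push_cast
      nlinarith
    calc Real.log ((n + 1 : ℕ) : ℝ) ≤ Real.log ((n : ℝ) ^ 2) := Real.log_le_log (by positivity) this
      _ = _ := by rw [Real.log_pow]; norm_num
  have h3 : (z (n + 1) : ℝ) ≤ (2 * Real.log n) ^ θ :=
    hn.trans (Real.rpow_le_rpow (Real.log_natCast_nonneg _) hlog2 hθ)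
  have h4 := (abs_le.1 (DF_abs (le_max_right 1 (z (n + 1))) (le_max_left 1 _) (n + 1))).2
  have h5 : ((max 1 (z (n + 1)) : ℕ) : ℝ) ≤ 1 + z (n + 1) := by
    have : max 1 (z (n + 1)) ≤ 1 + z (n + 1) := by omega
    exact_mod_cast this
  show (1 + DF (z (n + 1)) (n + 1)) / Real.log n ≤ (2 + (2 * Real.log n) ^ θ) / Real.log n
  apply div_le_div_of_nonneg_right _ hL0.le
  linarith

/-- **upper bound for the gaps** -/
theorem gaps_upper (hA : ∀ n, MeasurableSet[ℱ n] (A n)) {z : ℕ → ℕ} (hz : Monotone z) {θ : ℝ} (hθ : 0 ≤ θ)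
    (hzθ : ∀ᶠ n : ℕ in atTop, (z n : ℝ) ≤ Real.log n ^ θ) {C0 K0 b : ℕ} (hv : VLB C0 K0 b)
    (hs : θ * (4 * (C0 * b) + 3 : ℕ) < 2)
    (hd : ∀ᵐ ω ∂μ, ∀ ε : ℝ, 0 < ε → ∀ᶠ n : ℕ in atTop, |dens μ ℱ A n ω - rg z n| ≤ ε * rg z n)
    {lam : ℝ} (hlam : 1 < lam * (1 - (1 / 2 : ℝ) ^ b)) :
    ∀ᵐ ω ∂μ, ∀ᶠ x : ℕ in atTop, ∃ r, x < r ∧ r ≤ x + ⌈lam * Real.log x ^ 2⌉₊ ∧ ω ∈ A r := by
  set β : ℝ := (1 / 2 : ℝ) ^ b with hβ
  have hβ1 : β ≤ 1 := pow_le_one₀ (by norm_num) (by norm_num)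
  have hlam0 : 0 < lam := by
    by_contra h
    push Not at h
    have := mul_nonpos_of_nonpos_of_nonneg h (show 0 ≤ 1 - β by linarith)
    linarith
  obtain ⟨c, hc1, hc2⟩ := exists_between hlam
  set δ : ℝ := 1 - 2 / (1 + c) with hδ
  have hδ0 : 0 < δ := by
    rw [hδ, sub_pos, div_lt_one (by linarith)]
    linarith
  have h1 : 1 < (1 - δ) * c := by
    have : (1 - δ) * c = 2 * c / (1 + c) := by rw [hδ]; ring
    rw [this, lt_div_iff₀ (by linarith)]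
    linarith
  refine hits (μ := μ) hA (l := fun n => (1 - δ) * rg z n) ?_ h1 ?_
  · filter_upwards [hd] with ω hω
    filter_upwards [hω δ hδ0] with n hn
    have := (abs_le.1 hn).1
    linarith
  · filter_upwards [sum_lower hz hθ hzθ hv hs hlam0 hc2 (by linarith)] with x hx
    rw [← Finset.mul_sum, mul_assoc]
    have h2 : 0 ≤ 1 - δ := by
      rw [hδ]
      have : 0 < 2 / (1 + c) := by positivity
      linarith
    exact mul_le_mul_of_nonneg_left hx h2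

lemma prod_lower {δ : ℝ} (hδ : 0 < δ) {g : ℕ} {v : ℕ → ℝ} (h0 : ∀ i < g, 0 ≤ v i) (h1 : ∀ i < g, (1 + δ) * v i ≤ δ) :
    Real.exp (-((1 + δ) * ∑ i ∈ Finset.range g, v i)) ≤ ∏ i ∈ Finset.range g, (1 - v i) := by
  rw [Finset.mul_sum, ← Finset.sum_neg_distrib, Real.exp_sum]
  refine Finset.prod_le_prod (fun i _ => (Real.exp_pos _).le) fun i hi => ?_
  have hi' := Finset.mem_range.1 hi
  have h2 := h0 i hi'
  have h3 := h1 i hi'
  have h4 : 0 < 1 + (1 + δ) * v i := by positivity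
  have h5 : Real.exp (-((1 + δ) * v i)) ≤ (1 + (1 + δ) * v i)⁻¹ := by
    rw [Real.exp_neg]
    apply inv_anti₀ h4
    have := Real.add_one_le_exp ((1 + δ) * v i)
    linarith
  refine h5.trans ?_
  rw [inv_le_iff_one_le_mul₀ h4]
  nlinarith

/-- **long empty windows** -/
theorem gaps_lower (hA : ∀ n, MeasurableSet[ℱ n] (A n)) {z : ℕ → ℕ} (hz : Monotone z) {θ : ℝ} (hθ : 0 ≤ θ)
    (hzθ : ∀ᶠ n : ℕ in atTop, (z n : ℝ) ≤ Real.log n ^ θ) {C0 K0 b : ℕ} (hv : VLB C0 K0 b)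
    (hs : θ * (4 * (C0 * b) + 3 : ℕ) < 2)
    (hd : ∀ᵐ ω ∂μ, ∀ ε : ℝ, 0 < ε → ∀ᶠ n : ℕ in atTop, |dens μ ℱ A n ω - rg z n| ≤ ε * rg z n)
    {lam : ℝ} (hlam0 : 0 < lam) (hlam : lam * (1 + (1 / 2 : ℝ) ^ b) < 1) :
    ∀ᵐ ω ∂μ, ∀ᶠ j : ℕ in atTop, ∃ t, 2 ^ j ≤ t ∧ t + gg lam j < 2 ^ (j + 1) ∧ ω ∈ Emp A t (gg lam j) := by
  have hθ1 : θ < 1 := by
    have h1 : (3 : ℝ) ≤ ((4 * (C0 * b) + 3 : ℕ) : ℝ) := by
      have : 3 ≤ 4 * (C0 * b) + 3 := by omega
      exact_mod_cast this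
    nlinarith
  obtain ⟨c, hc1, hc2⟩ := exists_between hlam
  have hc0 : 0 < c := lt_trans (by positivity) hc1
  -- (1 + δ)^2 c < 1
  obtain ⟨δ, hδ0, hδ⟩ : ∃ δ : ℝ, 0 < δ ∧ (1 + δ) ^ 2 * c < 1 := by
    have h1 : Tendsto (fun δ : ℝ => (1 + δ) ^ 2 * c) (𝓝[>] 0) (𝓝 ((1 + 0) ^ 2 * c)) := by
      apply Tendsto.mono_left _ nhdsWithin_le_nhds
      exact Continuous.tendsto (by fun_prop) 0
    have h2 := (h1.eventually (gt_mem_nhds (show (1 + 0) ^ 2 * c < 1 by linarith))).and self_mem_nhdsWithin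
    obtain ⟨δ, h3, h4⟩ := h2.exists
    exact ⟨δ, h4, h3⟩
  have hrg := rg_tendsto hθ hθ1 hzθ
  set u : ℕ → ℝ := fun n => min 1 ((1 + δ) * rg z n) with hu
  have hu0 : ∀ n, 0 ≤ u n := fun n => le_min zero_le_one (mul_nonneg (by linarith) (rg_nonneg z n))
  refine empties (μ := μ) hA hu0 (fun n => min_le_left _ _) ?_ hlam0 hδ ?_
  · have h01 : ∀ᵐ ω ∂μ, ∀ n, 0 ≤ dens μ ℱ A n ω ∧ dens μ ℱ A n ω ≤ 1 := ae_all_iff.2 fun n => dens01 hA n
    filter_upwards [hd, h01] with ω hω hω1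
    filter_upwards [hω δ hδ0] with n hn
    have := (abs_le.1 hn).2
    exact le_min (hω1 n).2 (by linarith)
  · have h1 : ∀ᶠ n : ℕ in atTop, (1 + δ) * ((1 + δ) * rg z n) ≤ δ := by
      have h2 := (hrg.const_mul (1 + δ)).const_mul (1 + δ)
      rw [mul_zero, mul_zero] at h2
      filter_upwards [h2.eventually (gt_mem_nhds hδ0)] with n hn
      exact hn.le
    obtain ⟨n0, hn0⟩ := eventually_atTop.1 h1
    filter_upwards [sum_upper hz hθ hzθ hv hs hlam0 hc1, eventually_ge_atTop n0] with j hj hj0 t ht htg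
    have h2 := hj t ht htg
    have h3 : n0 ≤ t := by
      have : j < 2 ^ j := Nat.lt_two_pow_self
      omega
    have h4 := prod_lower (v := fun i => u (t + i)) (g := gg lam j) hδ0 (fun i _ => hu0 _) (fun i _ => by
      refine le_trans ?_ (hn0 (t + i) (by omega))
      exact mul_le_mul_of_nonneg_left (min_le_right _ _) (by linarith))
    refine le_trans ?_ h4
    apply Real.exp_le_exp.2
    apply neg_le_neg
    have h5 : ∑ i ∈ Finset.range (gg lam j), u (t + i) ≤ (1 + δ) * ∑ i ∈ Finset.range (gg lam j), rg z (t + i) := by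
      rw [Finset.mul_sum]
      exact Finset.sum_le_sum fun i _ => min_le_right _ _
    have hB : 0 ≤ (j : ℝ) * Real.log 2 := mul_nonneg (Nat.cast_nonneg _) (Real.log_nonneg (by norm_num))
    calc (1 + δ) * ∑ i ∈ Finset.range (gg lam j), u (t + i)
        ≤ (1 + δ) * ((1 + δ) * (c * (j * Real.log 2))) := by
          apply mul_le_mul_of_nonneg_left _ (by linarith)
          exact h5.trans (mul_le_mul_of_nonneg_left h2 (by linarith))
      _ = (1 + δ) ^ 2 * c * (j * Real.log 2) := by ring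

end Pool.Agent.N317.SL
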