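import Mathlib
import Pool.Agent.N317.SL.Sum

set_option autoImplicit false
set_option linter.unusedSectionVars false

/-! # From windows to the differences of the square roots of consecutive members -/

open Filter Set
open scoped Topology

namespace Pool.Agent.N317.SL

open Pool.Agent.N732.GV

/-- member number `n` of `S`, in increasing order; the least member has number `0` -/
noncomputable def mem (S : Set ℕ) (n : ℕ) : ℕ := Nat.nth (fun m => m ∈ S) n

/-- `(2 √p (√q - √p)) / (log p) ^ 2` for the members `p < q` with the numbers `n` and `n + 1` -/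
noncomputable def rat (S : Set ℕ) (n : ℕ) : ℝ :=
  2 * √(mem S n : ℝ) * (√(mem S (n + 1) : ℝ) - √(mem S n : ℝ)) / Real.log (mem S n) ^ 2

variable {S : Set ℕ}

lemma mem_strictMono (h : S.Infinite) : StrictMono (mem S) := Nat.nth_strictMono h

lemma mem_mem (h : S.Infinite) (n : ℕ) : mem S n ∈ S := Nat.nth_mem_of_infinite h n

lemma mem_tendsto (h : S.Infinite) : Tendsto (mem S) atTop atTop := (mem_strictMono h).tendsto_atTop

lemma next_le (h : S.Infinite) {n r : ℕ} (hr : r ∈ S) (hlt : mem S n < r) : mem S (n + 1) ≤ r := by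
  have h1 : r ∈ Set.range (Nat.nth (fun m => m ∈ S)) := by
    have h2 := Nat.range_nth_of_infinite (p := fun m => m ∈ S) h
    have h3 : r ∈ setOf (fun m => m ∈ S) := hr
    exact h2.symm ▸ h3
  obtain ⟨k, hk⟩ := h1
  have hk' : mem S k = r := hk
  rw [← hk'] at hlt ⊢
  have h2 := (mem_strictMono h).lt_iff_lt.1 hlt
  exact (mem_strictMono h).monotone h2

lemma between (h : S.Infinite) {t : ℕ} (ht : mem S 0 ≤ t) : ∃ n, mem S n ≤ t ∧ t < mem S (n + 1) := by
  have h1 : ∃ k, t < mem S k := ((mem_tendsto h).eventually_gt_atTop t).exists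
  classical
  set k := Nat.find h1 with hk
  have h2 : t < mem S k := Nat.find_spec h1
  have h3 : k ≠ 0 := by
    intro h0
    rw [h0] at h2
    omega
  obtain ⟨n, hn⟩ := Nat.exists_eq_succ_of_ne_zero h3
  refine ⟨n, ?_, ?_⟩
  · by_contra h4
    push Not at h4
    have := Nat.find_min' h1 h4
    omega
  · rw [show n + 1 = k from hn.symm]
    exact h2

lemma two_sqrt {p q : ℝ} (hp : 0 < p) (hq : p ≤ q) :
    2 * √p * (√q - √p) ≤ q - p ∧ (q - p) * (1 - (q - p) / (4 * p)) ≤ 2 * √p * (√q - √p) := by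
  set x := √p with hx
  set y := √q with hy
  have hx0 : 0 < x := Real.sqrt_pos.2 hp
  have hxy : x ≤ y := Real.sqrt_le_sqrt hq
  have e1 : p = x ^ 2 := (Real.sq_sqrt hp.le).symm
  have e2 : q = y ^ 2 := (Real.sq_sqrt (by linarith)).symm
  obtain ⟨d, hd⟩ : ∃ d, y = x + d := ⟨y - x, by ring⟩
  have hd0 : 0 ≤ d := by linarith
  rw [e1, e2, hd]
  constructor
  · nlinarith
  · have h1 : ((x + d) ^ 2 - x ^ 2) * (1 - ((x + d) ^ 2 - x ^ 2) / (4 * x ^ 2)) =
        2 * x * d - d ^ 3 * (4 * x + d) / (4 * x ^ 2) := by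
      field_simp
      ring
    rw [h1]
    have h2 : 0 ≤ d ^ 3 * (4 * x + d) / (4 * x ^ 2) := by positivity
    linarith

lemma mem_log (h : S.Infinite) : Tendsto (fun n => Real.log (mem S n)) atTop atTop :=
  Real.tendsto_log_atTop.comp (tendsto_natCast_atTop_atTop.comp (mem_tendsto h))

lemma rat_nonneg (h : S.Infinite) (n : ℕ) : 0 ≤ rat S n := by
  unfold rat
  have h1 : (mem S n : ℝ) ≤ mem S (n + 1) := by
    exact_mod_cast ((mem_strictMono h).monotone (Nat.le_succ n))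
  have h2 := Real.sqrt_le_sqrt h1
  exact div_nonneg (mul_nonneg (by positivity) (by linarith)) (by positivity)

/-- all late windows are hit -/
lemma seq_upper {lam lam' : ℝ} (h0 : 0 ≤ lam) (hlam : lam < lam')
    (h : ∀ᶠ x : ℕ in atTop, ∃ r, x < r ∧ r ≤ x + ⌈lam * Real.log x ^ 2⌉₊ ∧ r ∈ S) :
    S.Infinite ∧ ∀ᶠ n : ℕ in atTop, rat S n ≤ lam' := by
  have hS : S.Infinite := by
    refine Set.infinite_of_forall_exists_gt fun a => ?_
    obtain ⟨x, hx, hxa⟩ := (h.and (eventually_ge_atTop a)).exists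
    obtain ⟨r, h1, _, h3⟩ := hx
    exact ⟨r, h3, by omega⟩
  refine ⟨hS, ?_⟩
  have h1 : ∀ᶠ L : ℝ in atTop, 1 ≤ (lam' - lam) * L ^ 2 := by
    have h2 : Tendsto (fun L : ℝ => (lam' - lam) * L ^ 2) atTop atTop :=
      (tendsto_pow_atTop (by norm_num)).const_mul_atTop (by linarith)
    exact h2.eventually_ge_atTop 1
  filter_upwards [(mem_tendsto hS).eventually h, (mem_log hS).eventually h1, (mem_log hS).eventually_gt_atTop 0,
    (mem_tendsto hS).eventually_gt_atTop 0] with n hn h2 h3 h4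
  obtain ⟨r, hr1, hr2, hr3⟩ := hn
  have h5 := next_le hS hr3 hr1
  have h6 : (mem S (n + 1) : ℝ) ≤ mem S n + (lam * Real.log (mem S n) ^ 2 + 1) := by
    have h7 : (mem S (n + 1) : ℝ) ≤ mem S n + (⌈lam * Real.log (mem S n) ^ 2⌉₊ : ℕ) := by
      exact_mod_cast h5.trans hr2
    have h8 : ((⌈lam * Real.log (mem S n) ^ 2⌉₊ : ℕ) : ℝ) < lam * Real.log (mem S n) ^ 2 + 1 :=
      Nat.ceil_lt_add_one (by positivity)
    linarith
  have h7 : (0 : ℝ) < mem S n := by exact_mod_cast h4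
  have h8 : (mem S n : ℝ) ≤ mem S (n + 1) := by
    exact_mod_cast ((mem_strictMono hS).monotone (Nat.le_succ n))
  have h9 := (two_sqrt h7 h8).1
  unfold rat
  rw [div_le_iff₀ (by positivity)]
  nlinarith

/-- long empty windows -/
lemma seq_lower (hS : S.Infinite) {D : ℝ}
    (hU : ∀ᶠ n : ℕ in atTop, (mem S (n + 1) : ℝ) - mem S n ≤ Real.log (mem S n) ^ D) {lam lam' : ℝ}
    (h0 : 0 ≤ lam') (hlam : lam' < lam)
    (h : ∀ᶠ j : ℕ in atTop, ∃ t, 2 ^ j ≤ t ∧ t + gg lam j < 2 ^ (j + 1) ∧ ∀ r, t < r → r ≤ t + gg lam j → r ∉ S) :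
    ∃ᶠ n : ℕ in atTop, lam' ≤ rat S n := by
  have hlam0 : 0 < lam := by linarith
  set ε : ℝ := (lam - lam') / lam with hε
  have hε0 : 0 < ε := div_pos (by linarith) hlam0
  have hε1 : lam * (1 - ε) = lam' := by
    rw [hε]
    field_simp
    ring
  have hε2 : ε ≤ 1 := by
    rw [hε, div_le_one hlam0]
    linarith
  have h1 : ∀ᶠ X : ℝ in atTop, Real.log X ^ D ≤ ε * (4 * X) := by
    have h2 := (isLittleO_log_rpow_rpow_atTop D (show (0 : ℝ) < 1 by norm_num)).def (show 0 < 4 * ε by positivity)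
    filter_upwards [h2, eventually_gt_atTop 1] with X hX hX0
    rw [Real.rpow_one, Real.norm_eq_abs, Real.norm_eq_abs, abs_of_pos (by linarith : 0 < X)] at hX
    have := le_abs_self (Real.log X ^ D)
    linarith
  obtain ⟨N0, hN0⟩ := eventually_atTop.1 (hU.and (((tendsto_natCast_atTop_atTop.comp (mem_tendsto hS)).eventually h1).and
    ((mem_log hS).eventually_gt_atTop 0)))
  rw [frequently_atTop]
  intro N
  obtain ⟨j, hj, hj2⟩ := (h.and (eventually_ge_atTop (mem S (max N N0) + 1))).exists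
  obtain ⟨t, ht1, ht2, ht3⟩ := hj
  have hjt : j < 2 ^ j := Nat.lt_two_pow_self
  have hmax : mem S (max N N0) ≤ t := by omega
  obtain ⟨n, hn1, hn2⟩ := between hS (t := t) (((mem_strictMono hS).monotone (Nat.zero_le _)).trans hmax)
  have hn3 : max N N0 < n + 1 := (mem_strictMono hS).lt_iff_lt.1 (by omega)
  refine ⟨n, by omega, ?_⟩
  obtain ⟨hU1, hX, hlog⟩ := hN0 n (by omega)
  simp only [Function.comp] at hX
  have hq : t + gg lam j < mem S (n + 1) := by
    by_contra h2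
    push Not at h2
    exact ht3 _ hn2 h2 (mem_mem hS _)
  have hp0 : (0 : ℝ) < mem S n := by
    rcases Nat.eq_zero_or_pos (mem S n) with h3 | h3
    · rw [h3] at hlog
      simp at hlog
    · exact_mod_cast h3
  have hpq : (mem S n : ℝ) ≤ mem S (n + 1) := by
    exact_mod_cast ((mem_strictMono hS).monotone (Nat.le_succ n))
  have h2 := (two_sqrt hp0 hpq).2
  have hgap : (gg lam j : ℝ) ≤ (mem S (n + 1) : ℝ) - mem S n := by
    have : mem S n + gg lam j ≤ mem S (n + 1) := by omega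
    have h3 : (mem S n : ℝ) + gg lam j ≤ mem S (n + 1) := by exact_mod_cast this
    linarith
  have hgg : lam * Real.log (mem S n) ^ 2 ≤ gg lam j := by
    have h3 : lam * Real.log 2 ^ 2 * ((j : ℝ) + 2) ^ 2 ≤ gg lam j := Nat.le_ceil _
    refine le_trans ?_ h3
    have h4 : Real.log (mem S n) ≤ Real.log 2 * ((j : ℝ) + 2) := by
      have h5 : (mem S n : ℝ) ≤ (2 : ℝ) ^ (j + 1) := by
        have : mem S n ≤ 2 ^ (j + 1) := by omega
        exact_mod_cast this
      have h6 := Real.log_le_log hp0 h5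
      rw [Real.log_pow] at h6
      refine h6.trans ?_
      have hl2 : 0 < Real.log 2 := Real.log_pos (by norm_num)
      push_cast
      nlinarith
    have h5 := pow_le_pow_left₀ hlog.le h4 2
    calc lam * Real.log (mem S n) ^ 2 ≤ lam * (Real.log 2 * ((j : ℝ) + 2)) ^ 2 := mul_le_mul_of_nonneg_left h5 hlam0.le
      _ = _ := by ring
  have hfrac : ((mem S (n + 1) : ℝ) - mem S n) / (4 * mem S n) ≤ ε := by
    rw [div_le_iff₀ (by positivity)]
    exact hU1.trans hX
  unfold rat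
  rw [le_div_iff₀ (by positivity)]
  refine le_trans ?_ h2
  calc lam' * Real.log (mem S n) ^ 2 = lam * Real.log (mem S n) ^ 2 * (1 - ε) := by rw [← hε1]; ring
    _ ≤ ((mem S (n + 1) : ℝ) - mem S n) * (1 - ε) := mul_le_mul_of_nonneg_right (hgg.trans hgap) (by linarith)
    _ ≤ _ := mul_le_mul_of_nonneg_left (by linarith) (by linarith)

/-- windows of polylogarithmic length -/
lemma seq_poly {a : ℝ} (h : ∀ᶠ x : ℕ in atTop, ∃ r, x < r ∧ (r : ℝ) ≤ x + Real.log x ^ a ∧ r ∈ S) :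
    S.Infinite ∧ (∀ᶠ n : ℕ in atTop, (mem S (n + 1) : ℝ) - mem S n ≤ Real.log (mem S n) ^ a) ∧
      ∀ᶠ n : ℕ in atTop, √(mem S (n + 1) : ℝ) - √(mem S n : ℝ) ≤ Real.log (mem S n) ^ a / √(mem S n : ℝ) ∧
        √(mem S (n + 1) : ℝ) - √(mem S n : ℝ) < 1 := by
  have hS : S.Infinite := by
    refine Set.infinite_of_forall_exists_gt fun a => ?_
    obtain ⟨x, hx, hxa⟩ := (h.and (eventually_ge_atTop a)).exists
    obtain ⟨r, h1, _, h3⟩ := hx
    exact ⟨r, h3, by omega⟩
  have hU : ∀ᶠ n : ℕ in atTop, (mem S (n + 1) : ℝ) - mem S n ≤ Real.log (mem S n) ^ a := by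
    filter_upwards [(mem_tendsto hS).eventually h] with n hn
    obtain ⟨r, hr1, hr2, hr3⟩ := hn
    have h5 : (mem S (n + 1) : ℝ) ≤ r := by exact_mod_cast next_le hS hr3 hr1
    linarith
  refine ⟨hS, hU, ?_⟩
  have h1 : ∀ᶠ X : ℝ in atTop, Real.log X ^ a ≤ 1 / 2 * √X := by
    have h2 := (isLittleO_log_rpow_rpow_atTop a (show (0 : ℝ) < 1 / 2 by norm_num)).def (show (0 : ℝ) < 1 / 2 by norm_num)
    filter_upwards [h2, eventually_gt_atTop 1] with X hX hX0
    rw [← Real.sqrt_eq_rpow, Real.norm_eq_abs, Real.norm_eq_abs, abs_of_nonneg (Real.sqrt_nonneg X)] at hX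
    exact (le_abs_self _).trans hX
  filter_upwards [hU, (tendsto_natCast_atTop_atTop.comp (mem_tendsto hS)).eventually h1,
    (mem_tendsto hS).eventually_gt_atTop 0] with n hn hX h4
  simp only [Function.comp] at hX
  have hp0 : (0 : ℝ) < mem S n := by exact_mod_cast h4
  have hpq : (mem S n : ℝ) ≤ mem S (n + 1) := by
    exact_mod_cast ((mem_strictMono hS).monotone (Nat.le_succ n))
  have h2 := (two_sqrt hp0 hpq)
  have hs : 0 < √(mem S n : ℝ) := Real.sqrt_pos.2 hp0
  have hd : 0 ≤ √(mem S (n + 1) : ℝ) - √(mem S n : ℝ) := by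
    have := Real.sqrt_le_sqrt hpq
    linarith
  have h3 : √(mem S (n + 1) : ℝ) - √(mem S n : ℝ) ≤ Real.log (mem S n) ^ a / √(mem S n : ℝ) := by
    rw [le_div_iff₀ hs]
    -- (√q - √p) √p ≤ (√q-√p)(√q+√p) = q - p
    have e1 := Real.sq_sqrt hp0.le
    have e2 := Real.sq_sqrt (hp0.le.trans hpq)
    nlinarith [h2.1, mul_nonneg hd hs.le]
  refine ⟨h3, lt_of_le_of_lt h3 ?_⟩
  rw [div_lt_one hs]
  linarith

end Pool.Agent.N317.SL
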