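import Mathlib
import Pool.Agent.N317.SL.Seq

set_option autoImplicit false
set_option linter.unusedSectionVars false

/-! # Differences of square roots in sieved models: final forms -/

open MeasureTheory Filter Set
open scoped ENNReal Topology

namespace Pool.Agent.N317.SL

open Pool.Agent.R528.RM Pool.Agent.N732.GV Pool.Agent.N740.HK

/-- all windows of length `(log x) ^ a` are hit -/
theorem poly_all (κ : ℝ) : ∃ a : ℝ, ∀ {Ω : Type} {m0 : MeasurableSpace Ω} (μ : Measure Ω) [IsProbabilityMeasure μ]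
    (ℱ : Filtration ℕ m0) (A : ℕ → Set Ω) (z : ℕ → ℕ), (∀ n, MeasurableSet[ℱ n] (A n)) → Monotone z →
    (∀ᶠ n : ℕ in atTop, (z n : ℝ) ≤ Real.log n ^ κ) → (∀ n, ¬ Free (z n) n → A n = ∅) →
    (∀ᵐ ω ∂μ, Tendsto (fun n : ℕ => dens μ ℱ A n ω * (Real.log n * GG (z (n + 1))))
      (atTop ⊓ 𝓟 {n : ℕ | Free (z (n + 1)) (n + 1)}) (𝓝 1)) →
    ∀ᵐ ω ∂μ, ∀ᶠ x : ℕ in atTop, ∃ r, x < r ∧ (r : ℝ) ≤ x + Real.log x ^ a ∧ r ∈ {k | ω ∈ A k} := by
  obtain ⟨c, hc, h⟩ := gran_all κ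
  refine ⟨1 / c, fun {Ω m0} μ _ ℱ A z hA hz hzκ he hd => ?_⟩
  have e1 : c * (1 / c) = 1 := mul_one_div_cancel hc.ne'
  filter_upwards [h μ ℱ A z hA hz hzκ he hd] with ω hω
  have h1 := hω (1 / c) (by rw [e1])
  rw [e1] at h1
  filter_upwards [tendsto_natCast_atTop_atTop.eventually h1] with x hx
  by_contra hcon
  have h0 : ∑ m ∈ Finset.Ioc ⌊(x : ℝ)⌋₊ ⌊(x : ℝ) + Real.log (x : ℝ) ^ (1 / c)⌋₊, J1 A m ω = 0 := by
    refine Finset.sum_eq_zero fun m hm => ?_
    obtain ⟨h2, h3⟩ := Finset.mem_Ioc.1 hm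
    rw [Nat.floor_natCast] at h2
    have h4 : (0 : ℝ) ≤ (x : ℝ) + Real.log (x : ℝ) ^ (1 / c) :=
      add_nonneg (Nat.cast_nonneg x) (Real.rpow_nonneg (Real.log_natCast_nonneg x) _)
    have h5 : (m : ℝ) ≤ (x : ℝ) + Real.log (x : ℝ) ^ (1 / c) := (Nat.cast_le.2 h3).trans (Nat.floor_le h4)
    unfold J1
    exact Set.indicator_of_notMem (fun h6 => hcon ⟨m, h2, h5, h6⟩) _
  rw [h0, mul_zero, zero_sub, abs_neg, abs_one] at hx
  have : Real.exp (-1) < 1 := by
    rw [Real.exp_lt_one_iff]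
    norm_num
  linarith

/-- **small sieving levels** -/
theorem level_small : ∃ c : ℝ, 0 < c ∧ ∀ θ : ℝ, 0 < θ → θ ≤ c → ∀ {Ω : Type} {m0 : MeasurableSpace Ω} (μ : Measure Ω)
    [IsProbabilityMeasure μ] (ℱ : Filtration ℕ m0) (A : ℕ → Set Ω) (z : ℕ → ℕ), (∀ n, MeasurableSet[ℱ n] (A n)) →
    Monotone z → (∀ᶠ n : ℕ in atTop, (z n : ℝ) ≤ Real.log n ^ θ) → (∀ n, ¬ Free (z n) n → A n = ∅) →
    (∀ᵐ ω ∂μ, Tendsto (fun n : ℕ => dens μ ℱ A n ω * (Real.log n * GG (z (n + 1))))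
      (atTop ⊓ 𝓟 {n : ℕ | Free (z (n + 1)) (n + 1)}) (𝓝 1)) →
    ∀ᵐ ω ∂μ, (∀ᶠ n : ℕ in atTop, rat {k | ω ∈ A k} n ≤ 1 + Real.exp (-(c / θ))) ∧
      ∃ᶠ n : ℕ in atTop, 1 - Real.exp (-(c / θ)) ≤ rat {k | ω ∈ A k} n := by
  obtain ⟨C0, K0, hC, hK, hvar⟩ := var_level
  have hC' : (1 : ℝ) ≤ C0 := by exact_mod_cast hC
  set c : ℝ := 1 / (32 * C0 * (C0 + 1)) with hc
  have hc0 : 0 < c := by positivity
  refine ⟨c, hc0, fun θ hθ0 hθc {Ω m0} μ _ ℱ A z hA hz hzθ he hd => ?_⟩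
  set q : ℝ := 1 / (8 * C0 * θ) with hq
  have hcc : c * (32 * C0 * (C0 + 1)) = 1 := by
    rw [hc]
    field_simp
  have hθ64 : θ * (64 * C0) ≤ 1 := by
    calc θ * (64 * C0) ≤ c * (64 * C0) := mul_le_mul_of_nonneg_right hθc (by positivity)
      _ ≤ c * (32 * C0 * (C0 + 1)) := by
          apply mul_le_mul_of_nonneg_left _ hc0.le
          nlinarith
      _ = 1 := hcc
  have hq1 : 4 * ((C0 : ℝ) + 1) ≤ q := by
    rw [hq, le_div_iff₀ (by positivity)]
    calc 4 * ((C0 : ℝ) + 1) * (8 * C0 * θ) = θ * (32 * C0 * (C0 + 1)) := by ring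
      _ ≤ c * (32 * C0 * (C0 + 1)) := mul_le_mul_of_nonneg_right hθc (by positivity)
      _ = 1 := hcc
  set b : ℕ := ⌊q⌋₊ with hb
  have hb1 : (b : ℝ) ≤ q := Nat.floor_le (by linarith)
  have hb2 : q < (b : ℝ) + 1 := Nat.lt_floor_add_one _
  have hbC : C0 ≤ b := by
    have : (C0 : ℝ) < b := by linarith
    exact_mod_cast this.le
  have hv : VLB C0 K0 b := hvar b hbC
  have hs : θ * ((4 * (C0 * b) + 3 : ℕ) : ℝ) < 2 := by
    push_cast
    have h1 : θ * (4 * (C0 * (b : ℝ))) ≤ 1 / 2 := by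
      calc θ * (4 * (C0 * (b : ℝ))) ≤ θ * (4 * (C0 * q)) := by gcongr
        _ = 1 / 2 := by
            rw [hq]
            field_simp
            norm_num
    have h2 : θ ≤ 1 / 64 := by nlinarith
    nlinarith
  set β : ℝ := (1 / 2 : ℝ) ^ b with hβ
  have hβ0 : 0 < β := by positivity
  -- 2 β < exp (- c / θ)
  have hβe : 2 * β < Real.exp (-(c / θ)) := by
    have e1 : β = Real.exp (-(b * Real.log 2)) := by
      rw [hβ, Real.exp_neg, Real.exp_nat_mul, Real.exp_log (by norm_num), one_div, inv_pow]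
    have e2 : 2 * β = Real.exp (Real.log 2 - b * Real.log 2) := by
      rw [sub_eq_add_neg, Real.exp_add, Real.exp_log (by norm_num), e1]
    rw [e2]
    apply Real.exp_lt_exp.2
    have hl1 : (0.69 : ℝ) < Real.log 2 := by
      have := Real.log_two_gt_d9
      linarith
    have h3 : c / θ ≤ q / 8 := by
      rw [hq, div_le_div_iff₀ hθ0 (by norm_num)]
      have h4 : c * (64 * C0) ≤ 1 := by
        calc c * (64 * C0) ≤ c * (32 * C0 * (C0 + 1)) := by
              apply mul_le_mul_of_nonneg_left _ hc0.le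
              nlinarith
          _ = 1 := hcc
      have h5 : 1 / (8 * C0 * θ) * θ = 1 / (8 * C0) := by field_simp
      rw [h5, le_div_iff₀ (by positivity)]
      nlinarith
    have h8 : (8 : ℝ) ≤ q := by linarith
    nlinarith
  have hβq : β < 1 / 4 := by
    have h1 : Real.exp (-(c / θ)) < 1 := by
      rw [Real.exp_lt_one_iff]
      have : 0 < c / θ := by positivity
      linarith
    have hb8 : 3 ≤ b := by
      have : (3 : ℝ) < b := by linarith
      exact_mod_cast this.le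
    have : β ≤ (1 / 2 : ℝ) ^ 3 := pow_le_pow_of_le_one (by norm_num) (by norm_num) hb8
    norm_num at this
    linarith
  have hd' := rg_hd (μ := μ) (ℱ := ℱ) he hd
  have hup := gaps_upper (μ := μ) hA hz hθ0.le hzθ hv hs hd' (lam := 1 + 2 * β) (by
    rw [← hβ]
    nlinarith)
  have hlo := gaps_lower (μ := μ) hA hz hθ0.le hzθ hv hs hd' (lam := 1 - β) (by linarith) (by
    rw [← hβ]
    nlinarith)
  obtain ⟨a, ha⟩ := poly_all θ
  filter_upwards [hup, hlo, ha μ ℱ A z hA hz hzθ he hd] with ω h1 h2 h3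
  obtain ⟨hS, hU, _⟩ := seq_poly h3
  have h4 := seq_upper (S := {k | ω ∈ A k}) (lam := 1 + 2 * β) (lam' := 1 + Real.exp (-(c / θ))) (by positivity)
    (by linarith) h1
  have h5 := seq_lower (S := {k | ω ∈ A k}) hS hU (lam := 1 - β) (lam' := 1 - Real.exp (-(c / θ))) (by
    rw [sub_nonneg, Real.exp_le_one_iff]
    have : 0 < c / θ := by positivity
    linarith) (by linarith) h2
  exact ⟨h4.2, h5⟩

/-! ### Level `(log n) ^ (1 + o(1))` -/

lemma MM_inv (z : ℕ) : (GG z)⁻¹ = MM z := by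
  unfold Pool.Agent.N740.HK.GG MM
  rw [← Finset.prod_inv_distrib]
  refine Finset.prod_congr ?_ fun p _ => by rw [one_div]
  ext p
  rw [mem_PZ, Finset.mem_filter, Finset.mem_Icc]
  constructor
  · rintro ⟨⟨_, h2⟩, h3⟩
    exact ⟨h3, h2⟩
  · rintro ⟨h1, h2⟩
    exact ⟨⟨h1.one_lt.le, h2⟩, h1⟩

lemma MM_mono : Monotone MM := by
  intro z z' h
  have hsub : PZ z ⊆ PZ z' := fun p hp => mem_PZ.2 ⟨(mem_PZ.1 hp).1, (mem_PZ.1 hp).2.trans h⟩
  unfold MM
  rw [← Finset.prod_sdiff hsub]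
  have h1 : 1 ≤ ∏ p ∈ PZ z' \ PZ z, (1 - (p : ℝ)⁻¹)⁻¹ := by
    refine Finset.prod_induction _ (fun x => 1 ≤ x) (fun a b ha hb => one_le_mul_of_one_le_of_one_le ha hb) le_rfl ?_
    intro p hp
    have h2 := fac_ge (mem_PZ.1 (Finset.mem_sdiff.1 hp).1).1
    have h3 : (0 : ℝ) ≤ (p : ℝ)⁻¹ := by positivity
    linarith
  have h2 : 0 < MM z := MM_pos z
  unfold MM at h2
  nlinarith

lemma log_succ_ratio : Tendsto (fun n : ℕ => Real.log ((n : ℝ) + 1) / Real.log n) atTop (𝓝 1) := by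
  have h1 : Tendsto (fun n : ℕ => Real.log ((n : ℝ) + 1) - Real.log n) atTop (𝓝 0) := by
    have h1 : Tendsto (fun n : ℕ => 1 + (1 : ℝ) / n) atTop (𝓝 (1 + 0)) :=
      tendsto_const_nhds.add tendsto_one_div_atTop_nhds_zero_nat
    rw [add_zero] at h1
    have h2 := (Real.continuousAt_log (one_ne_zero)).tendsto.comp h1
    rw [Real.log_one] at h2
    refine h2.congr' ?_
    filter_upwards [eventually_gt_atTop 0] with n hn
    have hn' : (0 : ℝ) < n := by exact_mod_cast hn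
    show Real.log (1 + 1 / (n : ℝ)) = _
    rw [← Real.log_div (by positivity) hn'.ne']
    congr 1
    field_simp
  have h3 := (h1.div_atTop tendsto_logN).const_add 1
  rw [add_zero] at h3
  refine h3.congr' ?_
  filter_upwards [tendsto_logN.eventually_gt_atTop 0] with n hn
  field_simp
  ring

/-- **sieving levels `(log n) ^ (1 + o(1))`** -/
theorem level_one {Ω : Type} {m0 : MeasurableSpace Ω} (μ : Measure Ω)
    [IsProbabilityMeasure μ] (ℱ : Filtration ℕ m0) (A : ℕ → Set Ω) (z : ℕ → ℕ) (hA : ∀ n, MeasurableSet[ℱ n] (A n))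
    (hz : Monotone z) (hz0 : Tendsto (fun n : ℕ => (z n : ℝ) / Real.log n) atTop (𝓝 0))
    (hz1 : Tendsto (fun n : ℕ => Real.log (z n) / Real.log (Real.log n)) atTop (𝓝 1))
    (he : ∀ n, ¬ Free (z n) n → A n = ∅)
    (hd : ∀ᵐ ω ∂μ, Tendsto (fun n : ℕ => dens μ ℱ A n ω * (Real.log n * GG (z (n + 1))))
      (atTop ⊓ 𝓟 {n : ℕ | Free (z (n + 1)) (n + 1)}) (𝓝 1)) :
    ∀ᵐ ω ∂μ, ∀ lam : ℝ, lam < 2 * Real.exp (-Real.eulerMascheroniConstant) →
      ∃ᶠ n : ℕ in atTop, lam < rat {k | ω ∈ A k} n := by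
  set E := Real.exp Real.eulerMascheroniConstant with hE
  have hE0 : 0 < E := Real.exp_pos _
  have hEneg : Real.exp (-Real.eulerMascheroniConstant) = E⁻¹ := Real.exp_neg _
  have hl2 : 0 < Real.log 2 := Real.log_pos (by norm_num)
  set y : ℕ → ℕ := fun j => z (2 ^ j) with hy
  have hpow : Tendsto (fun j : ℕ => 2 ^ j) atTop (atTop : Filter ℕ) := tendsto_pow_atTop_atTop_of_one_lt (by norm_num)
  have hlogp : ∀ j : ℕ, Real.log ((2 ^ j : ℕ) : ℝ) = j * Real.log 2 := fun j => by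
    push_cast
    rw [Real.log_pow]
  have hy0 : Tendsto (fun j : ℕ => (y j : ℝ) / j) atTop (𝓝 0) := by
    have h1 := (hz0.comp hpow).mul_const (Real.log 2)
    rw [zero_mul] at h1
    refine h1.congr' ?_
    filter_upwards [eventually_gt_atTop 0] with j hj
    have hj' : (0 : ℝ) < j := by exact_mod_cast hj
    simp only [Function.comp, hlogp]
    rw [hy]
    field_simp
  have hy1 : Tendsto (fun j : ℕ => Real.log (y j) / Real.log j) atTop (𝓝 1) := by
    have h1 := hz1.comp hpow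
    have h2 : Tendsto (fun j : ℕ => 1 + Real.log (Real.log 2) / Real.log j) atTop (𝓝 (1 + 0)) :=
      ((tendsto_const_nhds (x := Real.log (Real.log 2))).div_atTop tendsto_logN).const_add 1
    rw [add_zero] at h2
    have h3 := h1.mul h2
    rw [mul_one] at h3
    have h4 : Tendsto (fun j : ℕ => Real.log ((j : ℝ) * Real.log 2)) atTop atTop :=
      Real.tendsto_log_atTop.comp (tendsto_natCast_atTop_atTop.atTop_mul_const hl2)
    refine h3.congr' ?_
    filter_upwards [eventually_gt_atTop 0, tendsto_logN.eventually_gt_atTop 0, h4.eventually_gt_atTop 0] with j hj hj2 hj3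
    have hj' : (0 : ℝ) < j := by exact_mod_cast hj
    simp only [Function.comp, hlogp]
    have e : 1 + Real.log (Real.log 2) / Real.log j = Real.log (j * Real.log 2) / Real.log j := by
      rw [Real.log_mul hj'.ne' hl2.ne']
      field_simp
    rw [e, hy]
    field_simp
  have hzκ : ∀ᶠ n : ℕ in atTop, (z n : ℝ) ≤ Real.log n ^ (1 : ℝ) := by
    filter_upwards [hz0.eventually (gt_mem_nhds one_pos), tendsto_logN.eventually_gt_atTop 0] with n hn hn1
    rw [div_lt_one hn1] at hn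
    rw [Real.rpow_one]
    exact hn.le
  have hd' := rg_hd (μ := μ) (ℱ := ℱ) he hd
  have hzero : ∀ᵐ ω ∂μ, ∀ n, ¬ (∀ p ∈ PZ (y (Nat.log 2 (n + 1))), ¬ p ∣ n + 1) → dens μ ℱ A n ω = 0 := by
    rw [ae_all_iff]
    intro n
    by_cases h : ∀ p ∈ PZ (y (Nat.log 2 (n + 1))), ¬ p ∣ n + 1
    · exact Eventually.of_forall fun ω h2 => absurd h h2
    · have hA0 : A (n + 1) = ∅ := by
        apply he
        intro hf
        apply h
        intro p hp
        obtain ⟨h1, h2⟩ := mem_PZ.1 hp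
        refine hf p h1 (h2.trans ?_)
        exact hz (Nat.pow_log_le_self 2 (by omega))
      have h1 : dens μ ℱ A n =ᵐ[μ] 0 := by
        unfold dens
        rw [hA0, Set.indicator_empty]
        rw [show (fun _ : Ω => (0 : ℝ)) = 0 from rfl, condExp_zero]
      filter_upwards [h1] with ω hω _
      exact hω
  have hMratio : Tendsto (fun j : ℕ => MM (y (j + 1)) / MM (y j)) atTop (𝓝 1) := by
    have h1 := MM_comp one_pos hy1
    rw [mul_one] at h1
    have h2 := (h1.comp (tendsto_add_atTop_nat 1)).mul log_succ_ratio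
    have h3 := h2.div h1 hE0.ne'
    rw [mul_one, div_self hE0.ne'] at h3
    refine h3.congr' ?_
    filter_upwards [tendsto_logN.eventually_gt_atTop 0, (tendsto_logN.comp (tendsto_add_atTop_nat 1)).eventually_gt_atTop 0] with j hj hj2
    simp only [Function.comp, Pi.div_apply] at hj2 ⊢
    push_cast at hj2 ⊢
    have := MM_pos (y j)
    field_simp
  have hup : ∀ᵐ ω ∂μ, ∀ ε : ℝ, 0 < ε → ∀ᶠ n : ℕ in atTop, (∀ p ∈ PZ (y (Nat.log 2 (n + 1))), ¬ p ∣ n + 1) →
      dens μ ℱ A n ω * Real.log ((n : ℝ) + 1) ≤ (1 + ε) * MM (y (Nat.log 2 (n + 1))) := by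
    have h01 : ∀ᵐ ω ∂μ, ∀ n, 0 ≤ dens μ ℱ A n ω ∧ dens μ ℱ A n ω ≤ 1 := ae_all_iff.2 fun n => dens01 hA n
    filter_upwards [hd', h01] with ω hω hω1
    intro ε hε
    set δ : ℝ := min (ε / 7) 1 with hδ
    have hδ0 : 0 < δ := lt_min (by positivity) one_pos
    have hδ1 : δ ≤ 1 := min_le_right _ _
    have hδ2 : δ ≤ ε / 7 := min_le_left _ _
    have hlog2 : Tendsto (fun n : ℕ => Nat.log 2 (n + 1)) atTop atTop := by
      refine tendsto_atTop_atTop.2 fun B => ⟨2 ^ B, fun n hn => ?_⟩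
      exact Nat.le_log_of_pow_le (by norm_num) (by omega)
    filter_upwards [hω δ hδ0, hlog2.eventually (hMratio.eventually (gt_mem_nhds (show (1 : ℝ) < 1 + δ by linarith))),
      log_succ_ratio.eventually (gt_mem_nhds (show (1 : ℝ) < 1 + δ by linarith)), tendsto_logN.eventually_gt_atTop 0]
      with n h1 h2 h3 h4 _
    set j := Nat.log 2 (n + 1) with hj
    have hMj := MM_pos (y j)
    have hlog1 : 0 ≤ Real.log ((n : ℝ) + 1) := by
      apply Real.log_nonneg
      have : (0 : ℝ) ≤ n := Nat.cast_nonneg n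
      linarith
    by_cases hf : Free (z (n + 1)) (n + 1)
    · rw [div_lt_iff₀ hMj] at h2
      rw [div_lt_iff₀ h4] at h3
      have h5 : MM (z (n + 1)) ≤ MM (y (j + 1)) := by
        apply MM_mono
        apply hz
        have := Nat.lt_pow_succ_log_self (b := 2) (by norm_num) (n + 1)
        exact this.le
      have e1 : rg z n = MM (z (n + 1)) / Real.log n := by
        unfold rg DF
        rw [if_pos hf, ← MM_inv]
        ring
      have h6 := (abs_le.1 h1).2
      have h7 : dens μ ℱ A n ω ≤ (1 + δ) * (MM (z (n + 1)) / Real.log n) := by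
        rw [e1] at h6
        linarith
      have hMz := MM_pos (z (n + 1))
      calc dens μ ℱ A n ω * Real.log ((n : ℝ) + 1)
          ≤ ((1 + δ) * (MM (z (n + 1)) / Real.log n)) * ((1 + δ) * Real.log n) :=
            mul_le_mul h7 h3.le hlog1 (by positivity)
        _ = (1 + δ) ^ 2 * MM (z (n + 1)) := by
            field_simp
        _ ≤ (1 + δ) ^ 2 * ((1 + δ) * MM (y j)) := by
            apply mul_le_mul_of_nonneg_left _ (by positivity)
            exact h5.trans h2.le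
        _ = (1 + δ) ^ 3 * MM (y j) := by ring
        _ ≤ (1 + ε) * MM (y j) := by
            apply mul_le_mul_of_nonneg_right _ hMj.le
            nlinarith [mul_nonneg hδ0.le (sub_nonneg.2 hδ1), mul_nonneg (mul_nonneg hδ0.le hδ0.le) (sub_nonneg.2 hδ1)]
    · have e1 : rg z n = 0 := by
        unfold rg DF
        rw [if_neg hf]
        norm_num
      rw [e1] at h1
      have h5 := (abs_le.1 h1).2
      have h6 : dens μ ℱ A n ω ≤ 0 := by linarith
      have h7 : dens μ ℱ A n ω * Real.log ((n : ℝ) + 1) ≤ 0 := mul_nonpos_of_nonpos_of_nonneg h6 hlog1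
      have : 0 < (1 + ε) * MM (y j) := by positivity
      linarith
  -- the constants
  set L : ℕ → ℝ := fun m => 2 / E * (1 - 1 / ((m : ℝ) + 2)) with hL
  have hm1 : ∀ m : ℕ, 0 < 1 - 1 / ((m : ℝ) + 2) ∧ 1 - 1 / ((m : ℝ) + 2) < 1 := fun m => by
    have h1 : 0 < 1 / ((m : ℝ) + 2) := by positivity
    have h2 : 1 / ((m : ℝ) + 2) < 1 := by
      rw [div_lt_one (by positivity)]
      have : (0 : ℝ) ≤ m := Nat.cast_nonneg m
      linarith
    constructor <;> linarith
  have hL0 : ∀ m, 0 < L m := fun m => mul_pos (by positivity) (hm1 m).1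
  have hwin : ∀ᵐ ω ∂μ, ∀ m : ℕ, ∀ᶠ j : ℕ in atTop, ∃ t, 2 ^ j ≤ t ∧ t + gg (L m) j < 2 ^ (j + 1) ∧
      ω ∈ Emp A t (gg (L m) j) := by
    rw [ae_all_iff]
    intro m
    refine windows (μ := μ) hA y hy0 hy1 hzero hup (hL0 m) ?_
    rw [← hE, hL]
    have : 2 / E * (1 - 1 / ((m : ℝ) + 2)) * E = 2 * (1 - 1 / ((m : ℝ) + 2)) := by
      field_simp
    simp only
    rw [this]
    linarith [(hm1 m).2]
  obtain ⟨a, ha⟩ := poly_all 1
  filter_upwards [hwin, ha μ ℱ A z hA hz hzκ he hd] with ω h1 h2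
  intro lam hlam
  obtain ⟨hS, hU, _⟩ := seq_poly h2
  rw [hEneg, ← div_eq_mul_inv] at hlam
  -- choose m
  have h3 : Tendsto (fun m : ℕ => 2 / E * (1 - 1 / ((m : ℝ) + 2)) * (1 - 1 / ((m : ℝ) + 2))) atTop
      (𝓝 (2 / E * (1 - 0) * (1 - 0))) := by
    have h4 : Tendsto (fun m : ℕ => 1 / ((m : ℝ) + 2)) atTop (𝓝 0) :=
      tendsto_const_nhds.div_atTop (tendsto_atTop_add_const_right _ _ tendsto_natCast_atTop_atTop)
    exact ((h4.const_sub 1).const_mul (2 / E)).mul (h4.const_sub 1)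
  rw [sub_zero, mul_one, mul_one] at h3
  obtain ⟨m, hm⟩ := (h3.eventually (lt_mem_nhds hlam)).exists
  have h4 := seq_lower (S := {k | ω ∈ A k}) hS hU (lam := L m) (lam' := L m * (1 - 1 / ((m : ℝ) + 2)))
    (mul_nonneg (hL0 m).le (hm1 m).1.le) (by
      have := mul_lt_mul_of_pos_left (hm1 m).2 (hL0 m)
      linarith) (h1 m)
  exact h4.mono fun n hn => lt_of_lt_of_le hm hn

lemma two_exp_gamma : 1 < 2 * Real.exp (-Real.eulerMascheroniConstant) := by
  have hE2 : Real.exp Real.eulerMascheroniConstant < 2 := by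
    have h1 : Real.eulerMascheroniConstant < Real.log 2 := by
      linarith [Real.eulerMascheroniConstant_lt_two_thirds, Real.log_two_gt_d9]
    calc Real.exp Real.eulerMascheroniConstant < Real.exp (Real.log 2) := Real.exp_lt_exp.2 h1
      _ = 2 := Real.exp_log (by norm_num)
  rw [Real.exp_neg, ← div_eq_mul_inv, lt_div_iff₀ (Real.exp_pos _)]
  linarith

end Pool.Agent.N317.SL
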