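import Mathlib
import Pool.Agent.N317.SL.Fin

set_option autoImplicit false
set_option linter.unusedSectionVars false

/-! # Windows of length `x ^ δ` in sieved models, and the windows between the squares of consecutive members -/

open MeasureTheory Filter Set
open scoped ENNReal Topology

namespace Pool.Agent.N317.SL

open Pool.Agent.R528.RM Pool.Agent.N732.GV Pool.Agent.N740.HK

/-- **windows of length at least `x ^ δ`** -/
theorem poly_windows {Ω : Type} {m0 : MeasurableSpace Ω} (μ : Measure Ω) [IsProbabilityMeasure μ]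
    (ℱ : Filtration ℕ m0) (A : ℕ → Set Ω) (z : ℕ → ℕ) (hA : ∀ n, MeasurableSet[ℱ n] (A n)) (hz : Monotone z)
    {κ : ℝ} (hzκ : ∀ᶠ n : ℕ in atTop, (z n : ℝ) ≤ Real.log n ^ κ) (he : ∀ n, ¬ Free (z n) n → A n = ∅)
    (hd : ∀ᵐ ω ∂μ, Tendsto (fun n : ℕ => dens μ ℱ A n ω * (Real.log n * GG (z (n + 1))))
      (atTop ⊓ 𝓟 {n : ℕ | Free (z (n + 1)) (n + 1)}) (𝓝 1)) :
    ∀ᵐ ω ∂μ, ∀ δ : ℝ, 0 < δ → ∀ ε : ℝ, 0 < ε → ∀ᶠ x : ℕ in atTop, ∀ H : ℕ, (x : ℝ) ^ δ ≤ H → H ≤ x →
      |(∑ m ∈ Finset.Ioc x (x + H), J1 A m ω) * Real.log x / H - 1| ≤ ε := by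
  obtain ⟨C0, K0, hC, hK, hvar⟩ := var_level
  set κ1 : ℝ := max κ 1 with hκ1
  have hκ1' : 1 ≤ κ1 := le_max_right _ _
  have hzκ1 : ∀ᶠ n : ℕ in atTop, (z n : ℝ) ≤ Real.log n ^ κ1 := by
    filter_upwards [hzκ, tendsto_logN.eventually_ge_atTop 1] with n hn hn1
    exact hn.trans (Real.rpow_le_rpow_of_exponent_le hn1 (le_max_left _ _))
  have hd' := rg_hd (μ := μ) (ℱ := ℱ) he hd
  filter_upwards [conc_windows (μ := μ) hA (rg_nonneg z) (rg_bdd (μ := μ) hA hd') hd'] with ω hω
  intro δ hδ ε hε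
  set e : ℝ := min ε 1 / 8 with he'
  have he0 : 0 < e := by
    have : 0 < min ε 1 := lt_min hε one_pos
    positivity
  have he1 : 8 * e ≤ 1 := by
    have := min_le_right ε 1
    linarith
  have he2 : 8 * e ≤ ε := by
    have := min_le_left ε 1
    linarith
  obtain ⟨b0, hb0⟩ := exists_pow_lt_of_lt_one he0 (show (1 / 2 : ℝ) < 1 by norm_num)
  set b := max b0 C0 with hb
  have hβe : (1 / 2 : ℝ) ^ b ≤ e := (pow_le_pow_of_le_one (by norm_num) (by norm_num) (le_max_left _ _)).trans hb0.le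
  have hv : VLB C0 K0 b := hvar b (le_max_right _ _)
  set β : ℝ := (1 / 2 : ℝ) ^ b with hβ
  have hβ0 : 0 < β := by positivity
  obtain ⟨C, hC0, hCw⟩ := hω e he0
  set s : ℝ := κ1 * (4 * (C0 * b) + 3 : ℕ) with hs
  have g1 : ∀ᶠ x : ℕ in atTop, Er C0 K0 b κ1 (Real.log x) ≤ e * (x : ℝ) ^ δ := by
    have h1 := (isLittleO_log_rpow_rpow_atTop s hδ).def (show 0 < e / (8 * K0 * (2 : ℝ) ^ s + 1) by positivity)
    filter_upwards [tendsto_natCast_atTop_atTop.eventually h1, tendsto_logN.eventually_gt_atTop 0,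
      eventually_gt_atTop 0] with x hx hx1 hx0
    have hx0' : (0 : ℝ) < x := by exact_mod_cast hx0
    rw [Real.norm_of_nonneg (Real.rpow_nonneg hx1.le _), Real.norm_of_nonneg (Real.rpow_nonneg hx0'.le _)] at hx
    unfold Er
    rw [Real.mul_rpow (by norm_num) hx1.le, ← hs]
    have h2 : 0 ≤ Real.log x ^ s := Real.rpow_nonneg hx1.le _
    calc 8 * K0 * ((2 : ℝ) ^ s * Real.log x ^ s) = (8 * K0 * (2 : ℝ) ^ s) * Real.log x ^ s := by ring
      _ ≤ (8 * K0 * (2 : ℝ) ^ s + 1) * Real.log x ^ s := mul_le_mul_of_nonneg_right (by linarith) h2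
      _ ≤ (8 * K0 * (2 : ℝ) ^ s + 1) * (e / (8 * K0 * (2 : ℝ) ^ s + 1) * (x : ℝ) ^ δ) :=
          mul_le_mul_of_nonneg_left hx (by positivity)
      _ = e * (x : ℝ) ^ δ := by field_simp
  have g2 : ∀ᶠ x : ℕ in atTop, C * Real.log x ^ 2 ≤ e * (x : ℝ) ^ δ := by
    have h1 := (isLittleO_log_rpow_rpow_atTop 2 hδ).def (show 0 < e / (C + 1) by positivity)
    filter_upwards [tendsto_natCast_atTop_atTop.eventually h1, tendsto_logN.eventually_gt_atTop 0,
      eventually_gt_atTop 0] with x hx hx1 hx0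
    have hx0' : (0 : ℝ) < x := by exact_mod_cast hx0
    rw [Real.norm_of_nonneg (Real.rpow_nonneg hx1.le _), Real.norm_of_nonneg (Real.rpow_nonneg hx0'.le _),
      show (2 : ℝ) = ((2 : ℕ) : ℝ) by norm_num, Real.rpow_natCast] at hx
    calc C * Real.log x ^ 2 ≤ (C + 1) * Real.log x ^ 2 := mul_le_mul_of_nonneg_right (by linarith) (by positivity)
      _ ≤ (C + 1) * (e / (C + 1) * (x : ℝ) ^ δ) := mul_le_mul_of_nonneg_left hx (by positivity)
      _ = e * (x : ℝ) ^ δ := by field_simp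
  obtain ⟨y0, hy0⟩ := eventually_atTop.1 (df_bound hz (show 0 ≤ κ1 by linarith) hzκ1 hv)
  filter_upwards [g1, g2, hCw, eventually_ge_atTop y0, tendsto_logN.eventually_ge_atTop (1 / e),
    eventually_ge_atTop 2] with x g1 g2 hCx hxy hL hx2 H hH1 hH2
  have hx2' : (2 : ℝ) ≤ x := by exact_mod_cast hx2
  set L := Real.log x with hLdef
  have hL8 : 8 ≤ L := by
    have : 8 ≤ 1 / e := by
      rw [le_div_iff₀ he0]
      exact he1
    linarith
  have hxδ : 0 < (x : ℝ) ^ δ := Real.rpow_pos_of_pos (by linarith) _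
  have hH0 : (0 : ℝ) < H := lt_of_lt_of_le hxδ hH1
  have hHx : (H : ℝ) ≤ x := by exact_mod_cast hH2
  set ℓ := Real.log ((x + H : ℕ) : ℝ) with hℓ
  have hℓ1 : ℓ ≤ (1 + e) * L := by
    have h1 : ℓ ≤ Real.log (2 * x) := by
      apply Real.log_le_log (by push_cast; positivity)
      push_cast
      linarith
    rw [Real.log_mul (by norm_num) (by linarith)] at h1
    have h2 : Real.log 2 < 1 := by
      have := Real.log_two_lt_d9
      linarith
    have h3 : 1 ≤ e * L := by
      rw [div_le_iff₀ he0] at hL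
      linarith
    linarith
  have hℓ0 : 0 < ℓ := Real.log_pos (by
    push_cast
    linarith)
  have h7 := hy0 (x + H) (by omega) x H rfl L (by linarith) (by nlinarith)
  have h8 := rg_window z hx2 H
  set R := ∑ m ∈ Finset.Ioc x (x + H), rg z (m - 1) with hR
  set D := ∑ m ∈ Finset.Ioc x (x + H), DF (z m) m with hD
  set N := ∑ m ∈ Finset.Ioc x (x + H), J1 A m ω with hN
  have hEr : Er C0 K0 b κ1 L ≤ e * H := g1.trans (mul_le_mul_of_nonneg_left hH1 he0.le)
  have hCL : C * L ^ 2 ≤ e * H := g2.trans (mul_le_mul_of_nonneg_left hH1 he0.le)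
  have hDa := abs_le.1 h7
  have hβH : β * H ≤ e * H := mul_le_mul_of_nonneg_right hβe hH0.le
  have hR0 : 0 ≤ R := Finset.sum_nonneg fun m _ => rg_nonneg _ _
  have hL0 : 0 < L := by linarith
  have hu : R * L ≤ (1 + 2 * e) * H := by
    have h9 := h8.2
    rw [le_div_iff₀ hL0] at h9
    linarith [hDa.2]
  have hl : (1 - 3 * e) * H ≤ R * L := by
    have h9 := h8.1
    rw [div_le_iff₀ hℓ0] at h9
    have h10 : R * ℓ ≤ R * ((1 + e) * L) := mul_le_mul_of_nonneg_left hℓ1 hR0
    have h11 : (1 - 2 * e) * H ≤ (1 + e) * (R * L) := by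
      have : (1 - 2 * e) * (H : ℝ) ≤ H + D := by linarith [hDa.1]
      calc (1 - 2 * e) * (H : ℝ) ≤ R * ℓ := this.trans h9
        _ ≤ R * ((1 + e) * L) := h10
        _ = _ := by ring
    have h12 : (1 + e) * ((1 - 3 * e) * H) ≤ (1 + e) * (R * L) := by nlinarith
    exact le_of_mul_le_mul_left h12 (by linarith)
  have hCa := abs_le.1 (hCx H hH2)
  have hnu : N * L ≤ (1 + 8 * e) * H := by
    have h1 : N ≤ (1 + e) * R + C * L := by linarith [hCa.2]
    have h2 : N * L ≤ (1 + e) * (R * L) + C * L ^ 2 := by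
      have := mul_le_mul_of_nonneg_right h1 hL0.le
      nlinarith
    have h3 : (1 + e) * (R * L) ≤ (1 + e) * ((1 + 2 * e) * H) := mul_le_mul_of_nonneg_left hu (by linarith)
    nlinarith
  have hnl : (1 - 8 * e) * H ≤ N * L := by
    have h1 : (1 - e) * R - C * L ≤ N := by linarith [hCa.1]
    have h2 : (1 - e) * (R * L) - C * L ^ 2 ≤ N * L := by
      have := mul_le_mul_of_nonneg_right h1 hL0.le
      nlinarith
    have h3 : (1 - e) * ((1 - 3 * e) * H) ≤ (1 - e) * (R * L) := mul_le_mul_of_nonneg_left hl (by linarith)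
    nlinarith
  rw [abs_le]
  constructor
  · have h1 : 1 - 8 * e ≤ N * L / H := (le_div_iff₀ hH0).2 hnl
    linarith
  · have h1 : N * L / H ≤ 1 + 8 * e := (div_le_iff₀ hH0).2 hnu
    linarith

/-- the number of the members of `S` strictly between the squares of the members number `n` and `n + 1` -/
noncomputable def bro (S : Set ℕ) (n : ℕ) : ℕ := {r : ℕ | r ∈ S ∧ mem S n ^ 2 < r ∧ r < mem S (n + 1) ^ 2}.ncard

/-- from windows to the windows between consecutive squares -/
theorem bro_law {Ω : Type} {A : ℕ → Set Ω} {ω : Ω} {a : ℝ}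
    (hpoly : ∀ᶠ x : ℕ in atTop, ∃ r, x < r ∧ (r : ℝ) ≤ x + Real.log x ^ a ∧ r ∈ {k | ω ∈ A k})
    (hw : ∀ δ : ℝ, 0 < δ → ∀ ε : ℝ, 0 < ε → ∀ᶠ x : ℕ in atTop, ∀ H : ℕ, (x : ℝ) ^ δ ≤ H → H ≤ x →
      |(∑ m ∈ Finset.Ioc x (x + H), J1 A m ω) * Real.log x / H - 1| ≤ ε) :
    {k | ω ∈ A k}.Infinite ∧
    Tendsto (fun n => (((mem {k | ω ∈ A k} (n + 1) : ℝ)) - mem {k | ω ∈ A k} n) / mem {k | ω ∈ A k} n) atTop (𝓝 0) ∧
    Tendsto (fun n => (bro {k | ω ∈ A k} n : ℝ) * Real.log (mem {k | ω ∈ A k} n) /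
      (mem {k | ω ∈ A k} n * ((mem {k | ω ∈ A k} (n + 1) : ℝ) - mem {k | ω ∈ A k} n))) atTop (𝓝 1) := by
  classical
  set S : Set ℕ := {k | ω ∈ A k} with hSdef
  obtain ⟨hS, hU, _⟩ := seq_poly hpoly
  have hp := tendsto_natCast_atTop_atTop (R := ℝ) |>.comp (mem_tendsto hS)
  have hgap : Tendsto (fun n => ((mem S (n + 1) : ℝ) - mem S n) / mem S n) atTop (𝓝 0) := by
    have h1 : Tendsto (fun X : ℝ => Real.log X ^ a / X) atTop (𝓝 0) := by
      have h2 := (isLittleO_log_rpow_rpow_atTop a (show (0 : ℝ) < 1 by norm_num)).tendsto_div_nhds_zero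
      simpa [Real.rpow_one] using h2
    refine squeeze_zero' ?_ ?_ (h1.comp hp)
    · filter_upwards with n
      have h8 : (mem S n : ℝ) ≤ mem S (n + 1) := by
        exact_mod_cast ((mem_strictMono hS).monotone (Nat.le_succ n))
      exact div_nonneg (by linarith) (Nat.cast_nonneg _)
    · filter_upwards [hU] with n hn
      exact div_le_div_of_nonneg_right hn (Nat.cast_nonneg _)
  refine ⟨hS, hgap, ?_⟩
  -- the counting law
  have hsq : Tendsto (fun n => mem S n ^ 2) atTop atTop :=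
    (tendsto_pow_atTop (by norm_num)).comp (mem_tendsto hS)
  set H : ℕ → ℕ := fun n => mem S (n + 1) ^ 2 - mem S n ^ 2 - 1 with hH
  have hcount : ∀ n, (bro S n : ℝ) = ∑ m ∈ Finset.Ioc (mem S n ^ 2) (mem S n ^ 2 + H n), J1 A m ω := by
    intro n
    have hlt : mem S n < mem S (n + 1) := mem_strictMono hS (Nat.lt_succ_self n)
    have hlt2 : mem S n ^ 2 < mem S (n + 1) ^ 2 := Nat.pow_lt_pow_left hlt (by norm_num)
    have e : {r : ℕ | r ∈ S ∧ mem S n ^ 2 < r ∧ r < mem S (n + 1) ^ 2} =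
        ((Finset.Ioc (mem S n ^ 2) (mem S n ^ 2 + H n)).filter (fun m => ω ∈ A m) : Finset ℕ) := by
      ext m
      simp only [Set.mem_ofPred_eq, Finset.coe_filter, Finset.mem_Ioc, hSdef, hH]
      constructor
      · rintro ⟨h1, h2, h3⟩
        exact ⟨⟨h2, by omega⟩, h1⟩
      · rintro ⟨⟨h2, h3⟩, h1⟩
        exact ⟨h1, h2, by omega⟩
    unfold bro
    rw [e, Set.ncard_coe_finset, Finset.card_filter]
    push_cast
    refine Finset.sum_congr rfl fun m _ => ?_
    unfold J1
    by_cases h : ω ∈ A m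
    · rw [if_pos h, Set.indicator_of_mem h]
    · rw [if_neg h, Set.indicator_of_notMem h]
  have hev : ∀ᶠ n in atTop, ((mem S n ^ 2 : ℕ) : ℝ) ^ (1 / 2 : ℝ) ≤ H n ∧ H n ≤ mem S n ^ 2 := by
    filter_upwards [hgap.eventually (gt_mem_nhds (show (0 : ℝ) < 1 / 4 by norm_num)), (mem_tendsto hS).eventually_ge_atTop 2]
      with n h1 h2
    have hlt : mem S n < mem S (n + 1) := mem_strictMono hS (Nat.lt_succ_self n)
    have hp0 : (0 : ℝ) < mem S n := by
      have : 0 < mem S n := by omega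
      exact_mod_cast this
    rw [div_lt_iff₀ hp0] at h1
    constructor
    · rw [Nat.cast_pow, ← Real.sqrt_eq_rpow, Real.sqrt_sq hp0.le]
      have h3 : mem S n + 1 ≤ mem S (n + 1) := hlt
      have h4 : (mem S n + 1) ^ 2 ≤ mem S (n + 1) ^ 2 := Nat.pow_le_pow_left h3 2
      have h5 : mem S n ≤ H n := by
        simp only [hH]
        have : (mem S n + 1) ^ 2 = mem S n ^ 2 + 2 * mem S n + 1 := by ring
        omega
      exact_mod_cast h5
    · have h3 : (mem S (n + 1) : ℝ) ^ 2 ≤ 2 * (mem S n : ℝ) ^ 2 := by nlinarith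
      have h4 : mem S (n + 1) ^ 2 ≤ 2 * mem S n ^ 2 := by exact_mod_cast h3
      simp only [hH]
      omega
  have hW : Tendsto (fun n => (bro S n : ℝ) * Real.log ((mem S n ^ 2 : ℕ) : ℝ) / H n) atTop (𝓝 1) := by
    rw [Metric.tendsto_nhds]
    intro ε hε
    filter_upwards [hsq.eventually (hw (1 / 2) (by norm_num) (ε / 2) (by positivity)), hev] with n h1 h2
    have h3 := h1 (H n) h2.1 h2.2
    rw [Real.dist_eq, hcount n]
    linarith
  have hR : Tendsto (fun n => (H n : ℝ) / (2 * (mem S n * ((mem S (n + 1) : ℝ) - mem S n)))) atTop (𝓝 1) := by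
    have h1 : Tendsto (fun n => 1 + ((mem S (n + 1) : ℝ) - mem S n) / mem S n / 2) atTop (𝓝 (1 + 0 / 2)) :=
      (hgap.div_const 2).const_add 1
    rw [zero_div, add_zero] at h1
    have h2 : Tendsto (fun n => 1 / (2 * (mem S n * ((mem S (n + 1) : ℝ) - mem S n)))) atTop (𝓝 0) := by
      have h3 : Tendsto (fun n => 1 / (mem S n : ℝ)) atTop (𝓝 0) := by
        have := tendsto_inv_atTop_zero.comp hp
        simpa [one_div, Function.comp_def] using this
      refine squeeze_zero' ?_ ?_ h3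
      · filter_upwards with n
        have h8 : (mem S n : ℝ) ≤ mem S (n + 1) := by
          exact_mod_cast ((mem_strictMono hS).monotone (Nat.le_succ n))
        have : (0 : ℝ) ≤ (mem S (n + 1) : ℝ) - mem S n := by linarith
        positivity
      · filter_upwards [(mem_tendsto hS).eventually_gt_atTop 0] with n hn
        have hp0 : (0 : ℝ) < mem S n := by exact_mod_cast hn
        have hlt : mem S n < mem S (n + 1) := mem_strictMono hS (Nat.lt_succ_self n)
        have h9 : (mem S n : ℝ) + 1 ≤ mem S (n + 1) := by exact_mod_cast hlt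
        apply one_div_le_one_div_of_le hp0
        nlinarith
    have h3 := h1.sub h2
    rw [sub_zero] at h3
    refine h3.congr' ?_
    filter_upwards [(mem_tendsto hS).eventually_gt_atTop 0] with n hn
    have hp0 : (0 : ℝ) < mem S n := by exact_mod_cast hn
    have hlt : mem S n < mem S (n + 1) := mem_strictMono hS (Nat.lt_succ_self n)
    have hlt2 : mem S n ^ 2 < mem S (n + 1) ^ 2 := Nat.pow_lt_pow_left hlt (by norm_num)
    have hd : (0 : ℝ) < (mem S (n + 1) : ℝ) - mem S n := by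
      have : (mem S n : ℝ) < mem S (n + 1) := by exact_mod_cast hlt
      linarith
    have e : (H n : ℝ) = (mem S (n + 1) : ℝ) ^ 2 - (mem S n : ℝ) ^ 2 - 1 := by
      simp only [hH]
      rw [Nat.cast_sub (by omega), Nat.cast_sub hlt2.le]
      push_cast
      ring
    rw [e]
    field_simp
    ring
  have hT := hW.mul hR
  rw [mul_one] at hT
  refine hT.congr' ?_
  filter_upwards [hev, (mem_tendsto hS).eventually_gt_atTop 0] with n h1 h2
  have hp0 : (0 : ℝ) < mem S n := by exact_mod_cast h2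
  have hH0 : (0 : ℝ) < H n := by
    refine lt_of_lt_of_le ?_ h1.1
    exact Real.rpow_pos_of_pos (by push_cast; positivity) _
  have hlt : mem S n < mem S (n + 1) := mem_strictMono hS (Nat.lt_succ_self n)
  have hd : (0 : ℝ) < (mem S (n + 1) : ℝ) - mem S n := by
    have : (mem S n : ℝ) < mem S (n + 1) := by exact_mod_cast hlt
    linarith
  have hlog : Real.log ((mem S n ^ 2 : ℕ) : ℝ) = 2 * Real.log (mem S n) := by
    push_cast
    rw [Real.log_pow]
    norm_num
  rw [hlog]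
  field_simp

/-- the extreme order of the counts is the extreme order of the differences of square roots -/
theorem bro_rat {S : Set ℕ} (hS : S.Infinite)
    (hgap : Tendsto (fun n => ((mem S (n + 1) : ℝ) - mem S n) / mem S n) atTop (𝓝 0))
    (hT : Tendsto (fun n => (bro S n : ℝ) * Real.log (mem S n) /
      (mem S n * ((mem S (n + 1) : ℝ) - mem S n))) atTop (𝓝 1)) :
    ∃ E : ℕ → ℝ, Tendsto E atTop (𝓝 1) ∧
      ∀ᶠ n in atTop, (bro S n : ℝ) / (mem S n * Real.log (mem S n)) = E n * rat S n := by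
  refine ⟨fun n => (bro S n : ℝ) * Real.log (mem S n) / (mem S n * ((mem S (n + 1) : ℝ) - mem S n)) *
    (((mem S (n + 1) : ℝ) - mem S n) / (2 * √(mem S n : ℝ) * (√(mem S (n + 1) : ℝ) - √(mem S n : ℝ)))), ?_, ?_⟩
  · have h1 : Tendsto (fun n => ((mem S (n + 1) : ℝ) - mem S n) /
        (2 * √(mem S n : ℝ) * (√(mem S (n + 1) : ℝ) - √(mem S n : ℝ)))) atTop (𝓝 1) := by
      have h2 : Tendsto (fun n => (1 - ((mem S (n + 1) : ℝ) - mem S n) / mem S n / 4)⁻¹) atTop (𝓝 (1 - 0 / 4)⁻¹) :=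
        ((hgap.div_const 4).const_sub 1).inv₀ (by norm_num)
      rw [zero_div, sub_zero, inv_one] at h2
      refine tendsto_of_tendsto_of_tendsto_of_le_of_le' tendsto_const_nhds h2 ?_ ?_
      · filter_upwards [(mem_tendsto hS).eventually_gt_atTop 0] with n hn
        have hp0 : (0 : ℝ) < mem S n := by exact_mod_cast hn
        have hlt : (mem S n : ℝ) < mem S (n + 1) := by exact_mod_cast mem_strictMono hS (Nat.lt_succ_self n)
        have h3 := two_sqrt hp0 hlt.le
        have h4 : 0 < 2 * √(mem S n : ℝ) * (√(mem S (n + 1) : ℝ) - √(mem S n : ℝ)) := by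
          have h5 := Real.sqrt_pos.2 hp0
          have h6 := Real.sqrt_lt_sqrt hp0.le hlt
          have : 0 < √(mem S (n + 1) : ℝ) - √(mem S n : ℝ) := by linarith
          positivity
        rw [le_div_iff₀ h4, one_mul]
        exact h3.1
      · filter_upwards [(mem_tendsto hS).eventually_gt_atTop 0,
          hgap.eventually (gt_mem_nhds (show (0 : ℝ) < 1 by norm_num))] with n hn hn1
        have hp0 : (0 : ℝ) < mem S n := by exact_mod_cast hn
        have hlt : (mem S n : ℝ) < mem S (n + 1) := by exact_mod_cast mem_strictMono hS (Nat.lt_succ_self n)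
        have h3 := two_sqrt hp0 hlt.le
        have h4 : 0 < 2 * √(mem S n : ℝ) * (√(mem S (n + 1) : ℝ) - √(mem S n : ℝ)) := by
          have h5 := Real.sqrt_pos.2 hp0
          have h6 := Real.sqrt_lt_sqrt hp0.le hlt
          have : 0 < √(mem S (n + 1) : ℝ) - √(mem S n : ℝ) := by linarith
          positivity
        have h5 : 0 < 1 - ((mem S (n + 1) : ℝ) - mem S n) / mem S n / 4 := by linarith
        rw [div_le_iff₀ h4, ← div_eq_inv_mul, le_div_iff₀ h5]
        have e : ((mem S (n + 1) : ℝ) - mem S n) / mem S n / 4 = ((mem S (n + 1) : ℝ) - mem S n) / (4 * mem S n) := by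
          rw [div_div]
          ring
        rw [e]
        exact h3.2
    have h2 := hT.mul h1
    rw [mul_one] at h2
    exact h2
  · filter_upwards [(mem_tendsto hS).eventually_gt_atTop 0, (mem_log hS).eventually_gt_atTop 0] with n hn hlog
    have hp0 : (0 : ℝ) < mem S n := by exact_mod_cast hn
    have hlt : (mem S n : ℝ) < mem S (n + 1) := by exact_mod_cast mem_strictMono hS (Nat.lt_succ_self n)
    have h5 := Real.sqrt_pos.2 hp0
    have h6 := Real.sqrt_lt_sqrt hp0.le hlt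
    have h7 : 0 < √(mem S (n + 1) : ℝ) - √(mem S n : ℝ) := by linarith
    have h8 : 0 < (mem S (n + 1) : ℝ) - mem S n := by linarith
    unfold rat
    field_simp

end Pool.Agent.N317.SL
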