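import Mathlib
import Pool.Agent.N317.SL.Poly

set_option autoImplicit false
set_option linter.unusedSectionVars false

/-! # Brocard's problem in sieved models: final forms -/

open MeasureTheory Filter Set
open scoped ENNReal Topology

namespace Pool.Agent.N317.SL

open Pool.Agent.R528.RM Pool.Agent.N732.GV Pool.Agent.N740.HK

lemma tr_up {E r B : ℕ → ℝ} (hE : Tendsto E atTop (𝓝 1)) (hB : ∀ᶠ n in atTop, B n = E n * r n)
    (hr0 : ∀ n, 0 ≤ r n) {u v : ℝ} (hu : 0 < u) (huv : u < v) (hr : ∀ᶠ n in atTop, r n ≤ u) :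
    ∀ᶠ n in atTop, B n ≤ v := by
  have h1 : 1 < v / u := by rwa [one_lt_div hu]
  filter_upwards [hE.eventually (gt_mem_nhds h1), hB, hr] with n h1 h2 h3
  rw [h2]
  calc E n * r n ≤ v / u * r n := mul_le_mul_of_nonneg_right h1.le (hr0 n)
    _ ≤ v / u * u := mul_le_mul_of_nonneg_left h3 (by
        have : 0 < v := by linarith
        positivity)
    _ = v := by field_simp

lemma tr_lo {E r B : ℕ → ℝ} (hE : Tendsto E atTop (𝓝 1)) (hB : ∀ᶠ n in atTop, B n = E n * r n)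
    {u v : ℝ} (hu : 0 < u) (huv : v < u) (hv : 0 ≤ v) (hr : ∃ᶠ n in atTop, u ≤ r n) :
    ∃ᶠ n in atTop, v ≤ B n := by
  have h1 : v / u < 1 := by rwa [div_lt_one hu]
  refine (hr.and_eventually ((hE.eventually (lt_mem_nhds h1)).and hB)).mono ?_
  rintro n ⟨h2, h3, h4⟩
  rw [h4]
  calc v = v / u * u := by field_simp
    _ ≤ E n * u := mul_le_mul_of_nonneg_right h3.le hu.le
    _ ≤ E n * r n := mul_le_mul_of_nonneg_left h2 (by
        have : 0 ≤ v / u := by positivity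
        linarith)

/-- `N(n) / (p(n) log p(n))` -/
noncomputable def brat (S : Set ℕ) (n : ℕ) : ℝ := (bro S n : ℝ) / (mem S n * Real.log (mem S n))

/-- the general part -/
theorem bro_all {Ω : Type} {m0 : MeasurableSpace Ω} (μ : Measure Ω) [IsProbabilityMeasure μ]
    (ℱ : Filtration ℕ m0) (A : ℕ → Set Ω) (z : ℕ → ℕ) (hA : ∀ n, MeasurableSet[ℱ n] (A n)) (hz : Monotone z)
    {κ : ℝ} (hzκ : ∀ᶠ n : ℕ in atTop, (z n : ℝ) ≤ Real.log n ^ κ) (he : ∀ n, ¬ Free (z n) n → A n = ∅)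
    (hd : ∀ᵐ ω ∂μ, Tendsto (fun n : ℕ => dens μ ℱ A n ω * (Real.log n * GG (z (n + 1))))
      (atTop ⊓ 𝓟 {n : ℕ | Free (z (n + 1)) (n + 1)}) (𝓝 1)) :
    ∀ᵐ ω ∂μ, {k | ω ∈ A k}.Infinite ∧
      Tendsto (fun n => (bro {k | ω ∈ A k} n : ℝ) * Real.log (mem {k | ω ∈ A k} n) /
        (mem {k | ω ∈ A k} n * ((mem {k | ω ∈ A k} (n + 1) : ℝ) - mem {k | ω ∈ A k} n))) atTop (𝓝 1) ∧
      (∀ M : ℕ, ∀ᶠ n : ℕ in atTop, M ≤ bro {k | ω ∈ A k} n) ∧
      ((∀ᶠ n : ℕ in atTop, 2 ≤ z n) → ∀ ε : ℝ, 0 < ε → ∀ᶠ n : ℕ in atTop,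
        2 - ε ≤ (bro {k | ω ∈ A k} n : ℝ) * Real.log (mem {k | ω ∈ A k} n) / mem {k | ω ∈ A k} n) ∧
      ∃ E : ℕ → ℝ, Tendsto E atTop (𝓝 1) ∧ ∀ᶠ n in atTop, brat {k | ω ∈ A k} n = E n * rat {k | ω ∈ A k} n := by
  obtain ⟨a, ha⟩ := poly_all κ
  filter_upwards [ha μ ℱ A z hA hz hzκ he hd, poly_windows μ ℱ A z hA hz hzκ he hd] with ω h1 h2
  obtain ⟨hS, hgap, hT⟩ := bro_law h1 h2
  set S : Set ℕ := {k | ω ∈ A k} with hSdef
  refine ⟨hS, hT, ?_, ?_, bro_rat hS hgap hT⟩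
  · intro M
    have h3 : Tendsto (fun X : ℝ => X / Real.log X) atTop atTop := by
      have h4 := (isLittleO_log_rpow_rpow_atTop 1 (show (0 : ℝ) < 1 by norm_num)).tendsto_div_nhds_zero
      simp only [Real.rpow_one] at h4
      have h5 : Tendsto (fun X : ℝ => Real.log X / X) atTop (𝓝[>] 0) := by
        refine tendsto_nhdsWithin_iff.2 ⟨h4, ?_⟩
        filter_upwards [eventually_gt_atTop 1] with X hX
        exact div_pos (Real.log_pos hX) (by linarith)
      have h6 := h5.inv_tendsto_nhdsGT_zero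
      refine h6.congr fun X => ?_
      simp [inv_div]
    have h4 := (h3.comp (tendsto_natCast_atTop_atTop.comp (mem_tendsto hS))).eventually_ge_atTop (2 * M : ℝ)
    filter_upwards [h4, hT.eventually (lt_mem_nhds (show (1 / 2 : ℝ) < 1 by norm_num)),
      (mem_tendsto hS).eventually_gt_atTop 0, (mem_log hS).eventually_gt_atTop 0] with n h5 h6 h7 h8
    simp only [Function.comp] at h5
    have hp0 : (0 : ℝ) < mem S n := by exact_mod_cast h7
    have hlt : mem S n < mem S (n + 1) := mem_strictMono hS (Nat.lt_succ_self n)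
    have h9 : (1 : ℝ) ≤ (mem S (n + 1) : ℝ) - mem S n := by
      have : (mem S n : ℝ) + 1 ≤ mem S (n + 1) := by exact_mod_cast hlt
      linarith
    rw [lt_div_iff₀ (by positivity)] at h6
    rw [le_div_iff₀ h8] at h5
    have h10 : (mem S n : ℝ) * 1 ≤ mem S n * ((mem S (n + 1) : ℝ) - mem S n) := mul_le_mul_of_nonneg_left h9 hp0.le
    have h11 : (M : ℝ) * Real.log (mem S n) ≤ bro S n * Real.log (mem S n) := by nlinarith
    have h12 := le_of_mul_le_mul_right h11 h8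
    exact_mod_cast h12
  · intro hz2 ε hε
    have hz2' : ∀ᶠ n in atTop, 2 ≤ z (mem S n) := (mem_tendsto hS).eventually hz2
    have hodd : ∀ᶠ n in atTop, 2 ≤ (mem S (n + 1) : ℝ) - mem S n := by
      filter_upwards [hz2', (tendsto_add_atTop_nat 1).eventually hz2'] with n h3 h4
      have hod : ∀ k, 2 ≤ z (mem S k) → ¬ 2 ∣ mem S k := by
        intro k hk h2
        have h5 : mem S k ∈ S := mem_mem hS k
        have h6 : A (mem S k) = ∅ := he _ (fun hf => hf 2 Nat.prime_two hk h2)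
        have h7 : ω ∈ A (mem S k) := h5
        rw [h6] at h7
        exact h7
      have h5 := hod n h3
      have h6 := hod (n + 1) h4
      have hlt : mem S n < mem S (n + 1) := mem_strictMono hS (Nat.lt_succ_self n)
      have h7 : mem S n + 2 ≤ mem S (n + 1) := by omega
      have h8 : (mem S n : ℝ) + 2 ≤ mem S (n + 1) := by exact_mod_cast h7
      linarith
    filter_upwards [hodd, hT.eventually (lt_mem_nhds (show 1 - ε / 2 < 1 by linarith)),
      (mem_tendsto hS).eventually_gt_atTop 0, (mem_log hS).eventually_gt_atTop 0] with n h5 h6 h7 h8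
    have hp0 : (0 : ℝ) < mem S n := by exact_mod_cast h7
    set g := (mem S (n + 1) : ℝ) - mem S n with hg
    have hg0 : 0 < g := by linarith
    have e : (bro S n : ℝ) * Real.log (mem S n) / mem S n = (bro S n : ℝ) * Real.log (mem S n) / (mem S n * g) * g := by
      field_simp
    rw [e]
    have h9 : 0 ≤ (bro S n : ℝ) * Real.log (mem S n) / (mem S n * g) := by positivity
    nlinarith

/-- small levels -/
theorem bro_small : ∃ c : ℝ, 0 < c ∧ ∀ θ : ℝ, 0 < θ → θ ≤ c → ∀ {Ω : Type} {m0 : MeasurableSpace Ω} (μ : Measure Ω)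
    [IsProbabilityMeasure μ] (ℱ : Filtration ℕ m0) (A : ℕ → Set Ω) (z : ℕ → ℕ), (∀ n, MeasurableSet[ℱ n] (A n)) →
    Monotone z → (∀ᶠ n : ℕ in atTop, (z n : ℝ) ≤ Real.log n ^ θ) → (∀ n, ¬ Free (z n) n → A n = ∅) →
    (∀ᵐ ω ∂μ, Tendsto (fun n : ℕ => dens μ ℱ A n ω * (Real.log n * GG (z (n + 1))))
      (atTop ⊓ 𝓟 {n : ℕ | Free (z (n + 1)) (n + 1)}) (𝓝 1)) →
    ∀ᵐ ω ∂μ, (∀ᶠ n : ℕ in atTop, brat {k | ω ∈ A k} n ≤ 1 + Real.exp (-(c / θ))) ∧
      ∃ᶠ n : ℕ in atTop, 1 - Real.exp (-(c / θ)) ≤ brat {k | ω ∈ A k} n := by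
  obtain ⟨c, hc, h⟩ := level_small
  refine ⟨c / 2, by positivity, fun θ hθ hθc {Ω m0} μ _ ℱ A z hA hz hzθ he hd => ?_⟩
  filter_upwards [h θ hθ (by linarith) μ ℱ A z hA hz hzθ he hd, bro_all μ ℱ A z hA hz hzθ he hd] with ω h1 h2
  obtain ⟨hS, _, _, _, E, hE, hB⟩ := h2
  have hx : Real.exp (-(c / θ)) < Real.exp (-(c / 2 / θ)) := by
    apply Real.exp_lt_exp.2
    have : 0 < c / θ := by positivity
    have e : c / 2 / θ = c / θ / 2 := by ring
    rw [e]
    linarith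
  have hy : Real.exp (-(c / 2 / θ)) < 1 := by
    rw [Real.exp_lt_one_iff]
    have : 0 < c / 2 / θ := by positivity
    linarith
  have hx0 := Real.exp_pos (-(c / θ))
  exact ⟨tr_up hE hB (rat_nonneg hS) (by linarith) (by linarith) h1.1,
    tr_lo hE hB (by linarith) (by linarith) (by linarith) h1.2⟩

/-- levels `(log n) ^ (1 + o(1))` -/
theorem bro_one {Ω : Type} {m0 : MeasurableSpace Ω} (μ : Measure Ω)
    [IsProbabilityMeasure μ] (ℱ : Filtration ℕ m0) (A : ℕ → Set Ω) (z : ℕ → ℕ) (hA : ∀ n, MeasurableSet[ℱ n] (A n))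
    (hz : Monotone z) (hz0 : Tendsto (fun n : ℕ => (z n : ℝ) / Real.log n) atTop (𝓝 0))
    (hz1 : Tendsto (fun n : ℕ => Real.log (z n) / Real.log (Real.log n)) atTop (𝓝 1))
    (he : ∀ n, ¬ Free (z n) n → A n = ∅)
    (hd : ∀ᵐ ω ∂μ, Tendsto (fun n : ℕ => dens μ ℱ A n ω * (Real.log n * GG (z (n + 1))))
      (atTop ⊓ 𝓟 {n : ℕ | Free (z (n + 1)) (n + 1)}) (𝓝 1)) :
    ∀ᵐ ω ∂μ, ∀ lam : ℝ, lam < 2 * Real.exp (-Real.eulerMascheroniConstant) →
      ∃ᶠ n : ℕ in atTop, lam < brat {k | ω ∈ A k} n := by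
  have hzκ : ∀ᶠ n : ℕ in atTop, (z n : ℝ) ≤ Real.log n ^ (1 : ℝ) := by
    filter_upwards [hz0.eventually (gt_mem_nhds one_pos), tendsto_logN.eventually_gt_atTop 0] with n hn hn1
    rw [div_lt_one hn1] at hn
    rw [Real.rpow_one]
    exact hn.le
  filter_upwards [level_one μ ℱ A z hA hz hz0 hz1 he hd, bro_all μ ℱ A z hA hz hzκ he hd] with ω h1 h2
  obtain ⟨hS, _, _, _, E, hE, hB⟩ := h2
  intro lam hlam
  have hG : 0 < 2 * Real.exp (-Real.eulerMascheroniConstant) := by positivity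
  obtain ⟨l2, h3, h4⟩ := exists_between (max_lt hlam hG)
  obtain ⟨l3, h5, h6⟩ := exists_between h4
  have h7 : 0 < l2 := lt_of_le_of_lt (le_max_right _ _) h3
  have h8 : lam < l2 := lt_of_le_of_lt (le_max_left _ _) h3
  have h9 := tr_lo hE hB (u := l3) (v := l2) (by linarith) h5 h7.le ((h1 l3 h6).mono fun n hn => hn.le)
  exact h9.mono fun n hn => lt_of_lt_of_le h8 hn

end Pool.Agent.N317.SL
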