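import Mathlib
import Pool.Agent.N317.SL.Fin

set_option autoImplicit false
set_option linter.unusedSectionVars false

/-! # Models sieved by the primes up to `n ^ t` -/

open MeasureTheory Filter Set
open scoped ENNReal Topology

namespace Pool.Agent.N317.SL

open Pool.Agent.R528.RM Pool.Agent.N732.GV Pool.Agent.N740.HK

lemma df_bound_pow {z : ℕ → ℕ} (hz : Monotone z) {t : ℝ} (ht : 0 ≤ t)
    (hzt : ∀ᶠ n : ℕ in atTop, (z n : ℝ) ≤ (n : ℝ) ^ t) {C0 K0 b : ℕ} (hv : VLB C0 K0 b) :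
    ∀ᶠ y : ℕ in atTop, ∀ x H : ℕ, x + H = y →
      |∑ m ∈ Finset.Ioc x (x + H), DF (z m) m| ≤
        (1 / 2 : ℝ) ^ b * H + 8 * K0 * (y : ℝ) ^ (t * (4 * (C0 * b) + 3 : ℕ)) := by
  filter_upwards [hzt, eventually_ge_atTop 1] with y hy hy1 x H hxy
  have hy1' : (1 : ℝ) ≤ y := by exact_mod_cast hy1
  set Z : ℕ := ⌊(y : ℝ) ^ t⌋₊ with hZ
  have h2L : (1 : ℝ) ≤ (y : ℝ) ^ t := Real.one_le_rpow hy1' ht
  have hZ1 : 1 ≤ Z := by
    rw [hZ, Nat.one_le_floor_iff]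
    exact h2L
  have hZ2 : (Z : ℝ) ≤ (y : ℝ) ^ t := Nat.floor_le (by linarith)
  have hzy : z (x + H) ≤ Z := by
    rw [hxy, hZ]
    exact Nat.le_floor hy
  refine (hv z Z hz hZ1 x H hzy).trans (add_le_add le_rfl ?_)
  have hZr : (1 : ℝ) ≤ Z := by exact_mod_cast hZ1
  have h1 : ((Z : ℝ) + 1) * (((Z : ℝ) + 3) * K0 * (Z : ℝ) ^ (4 * (C0 * b) + 1)) ≤
      (2 * Z) * ((4 * Z) * K0 * (Z : ℝ) ^ (4 * (C0 * b) + 1)) := by
    gcongr <;> linarith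
  have h2 : (2 * Z) * ((4 * Z) * K0 * (Z : ℝ) ^ (4 * (C0 * b) + 1)) = 8 * K0 * (Z : ℝ) ^ (4 * (C0 * b) + 3) := by
    rw [show 4 * (C0 * b) + 3 = (4 * (C0 * b) + 1) + 2 by ring, pow_add]
    ring
  have h3 : (Z : ℝ) ^ (4 * (C0 * b) + 3) ≤ (y : ℝ) ^ (t * (4 * (C0 * b) + 3 : ℕ)) := by
    calc (Z : ℝ) ^ (4 * (C0 * b) + 3) ≤ ((y : ℝ) ^ t) ^ (4 * (C0 * b) + 3) := pow_le_pow_left₀ (by positivity) hZ2 _
      _ = _ := by rw [← Real.rpow_natCast, ← Real.rpow_mul (by linarith)]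
  calc _ ≤ 8 * K0 * (Z : ℝ) ^ (4 * (C0 * b) + 3) := h1.trans h2.le
    _ ≤ _ := mul_le_mul_of_nonneg_left h3 (by positivity)

/-- the sum over a window of length `x ^ (C t)`, from below -/
lemma sum_pow {z : ℕ → ℕ} (hz : Monotone z) {t : ℝ} (ht : 0 < t)
    (hzt : ∀ᶠ n : ℕ in atTop, (z n : ℝ) ≤ (n : ℝ) ^ t) {C0 K0 b M : ℕ} (hv : VLB C0 K0 b) (hb : 1 ≤ b)
    (hM : M = 4 * (C0 * b) + 3) (htM : ((M : ℝ) + 1) * t ≤ 1 / 4) :
    ∀ᶠ x : ℕ in atTop, 2 * Real.log x ≤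
      ∑ i ∈ Finset.range ⌊(x : ℝ) ^ (((M : ℝ) + 1) * t)⌋₊, (1 / 2 : ℝ) * rg z (x + i) := by
  set a : ℝ := ((M : ℝ) + 1) * t with ha
  have ha0 : 0 < a := by positivity
  have hβ : (1 / 2 : ℝ) ^ b ≤ 1 / 2 := by
    calc (1 / 2 : ℝ) ^ b ≤ (1 / 2 : ℝ) ^ 1 := pow_le_pow_of_le_one (by norm_num) (by norm_num) hb
      _ = 1 / 2 := pow_one _
  have hcast := tendsto_natCast_atTop_atTop (R := ℝ)
  have h1 : ∀ᶠ X : ℝ in atTop, 8 * (K0 : ℝ) * (2 : ℝ) ^ (t * M) * 8 ≤ X ^ t :=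
    (tendsto_rpow_atTop ht).eventually_ge_atTop _
  have h2 : ∀ᶠ X : ℝ in atTop, 64 * Real.log X ^ 2 ≤ X ^ a := by
    have h3 := (isLittleO_log_rpow_rpow_atTop 2 ha0).def (show (0 : ℝ) < 1 / 64 by norm_num)
    filter_upwards [h3, eventually_gt_atTop 1] with x hx hx0
    have hl : 0 < Real.log x := Real.log_pos hx0
    rw [Real.norm_of_nonneg (Real.rpow_nonneg hl.le _), Real.norm_of_nonneg (Real.rpow_nonneg (by linarith) _),
      show (2 : ℝ) = ((2 : ℕ) : ℝ) by norm_num, Real.rpow_natCast] at hx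
    linarith
  have h3 : ∀ᶠ X : ℝ in atTop, 2 ≤ X ^ a := (tendsto_rpow_atTop ha0).eventually_ge_atTop _
  have hy : Tendsto (fun x : ℕ => x + ⌊(x : ℝ) ^ a⌋₊) atTop atTop :=
    tendsto_atTop_mono (fun x => Nat.le_add_right _ _) tendsto_id
  filter_upwards [hcast.eventually h1, hcast.eventually h2, hcast.eventually h3,
    hy.eventually (df_bound_pow hz ht.le hzt hv), eventually_ge_atTop 2] with x h1 h2 h3 h4 h6
  set W : ℝ := (x : ℝ) ^ a with hW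
  set H := ⌊W⌋₊ with hH
  have hx2 : (2 : ℝ) ≤ x := by exact_mod_cast h6
  have hL : 0 < Real.log (x : ℝ) := Real.log_pos (by linarith)
  have hWx : W ≤ x := by
    calc W ≤ (x : ℝ) ^ (1 : ℝ) := Real.rpow_le_rpow_of_exponent_le (by linarith) (by linarith)
      _ = x := Real.rpow_one _
  have hH1 : (H : ℝ) ≤ W := Nat.floor_le (by linarith)
  have hH2 : W < H + 1 := Nat.lt_floor_add_one _
  have hH3 : W / 2 ≤ H := by linarith
  have h7 := h4 x H rfl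
  have h8 := (rg_window z h6 H).1
  rw [sum_range_Ioc] at h8
  have hxH : ((x + H : ℕ) : ℝ) ≤ 2 * x := by
    push_cast
    linarith
  have hxH0 : (0 : ℝ) ≤ ((x + H : ℕ) : ℝ) := Nat.cast_nonneg _
  have hlog2 : Real.log ((x + H : ℕ) : ℝ) ≤ 2 * Real.log x := by
    have e : 2 * Real.log (x : ℝ) = Real.log ((x : ℝ) * x) := by
      rw [Real.log_mul (by linarith) (by linarith)]
      ring
    rw [e]
    apply Real.log_le_log (by push_cast; positivity)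
    nlinarith
  have hlp : 0 < Real.log ((x + H : ℕ) : ℝ) := Real.log_pos (by
    push_cast
    have : (0 : ℝ) ≤ H := Nat.cast_nonneg _
    linarith)
  have hEr : 8 * (K0 : ℝ) * ((x + H : ℕ) : ℝ) ^ (t * (4 * (C0 * b) + 3 : ℕ)) ≤ W / 8 := by
    rw [← hM]
    have e1 : W = (x : ℝ) ^ (t * M) * (x : ℝ) ^ t := by
      rw [hW, ← Real.rpow_add (by linarith), ha]
      congr 1
      ring
    have e2 : ((x + H : ℕ) : ℝ) ^ (t * M) ≤ (2 : ℝ) ^ (t * M) * (x : ℝ) ^ (t * M) := by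
      rw [← Real.mul_rpow (by norm_num) (by linarith)]
      exact Real.rpow_le_rpow hxH0 hxH (by positivity)
    have e3 : 0 ≤ (x : ℝ) ^ (t * M) := Real.rpow_nonneg (by linarith) _
    calc 8 * (K0 : ℝ) * ((x + H : ℕ) : ℝ) ^ (t * M)
        ≤ 8 * (K0 : ℝ) * ((2 : ℝ) ^ (t * M) * (x : ℝ) ^ (t * M)) := mul_le_mul_of_nonneg_left e2 (by positivity)
      _ = (8 * (K0 : ℝ) * (2 : ℝ) ^ (t * M) * 8) * (x : ℝ) ^ (t * M) / 8 := by ring
      _ ≤ (x : ℝ) ^ t * (x : ℝ) ^ (t * M) / 8 := by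
          have := mul_le_mul_of_nonneg_right h1 e3
          linarith
      _ = W / 8 := by rw [e1]; ring
  have h9 := (abs_le.1 h7).1
  have hH0 : (0 : ℝ) ≤ H := Nat.cast_nonneg _
  have h10 : (1 / 2 : ℝ) ^ b * H ≤ 1 / 2 * H := mul_le_mul_of_nonneg_right hβ hH0
  have h11 : W / 8 ≤ (H : ℝ) + ∑ m ∈ Finset.Ioc x (x + H), DF (z m) m := by linarith
  rw [← Finset.mul_sum]
  have h12 : 4 * Real.log (x : ℝ) ≤ ((H : ℝ) + ∑ m ∈ Finset.Ioc x (x + H), DF (z m) m) / Real.log ((x + H : ℕ) : ℝ) := by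
    rw [le_div_iff₀ hlp]
    calc 4 * Real.log (x : ℝ) * Real.log ((x + H : ℕ) : ℝ) ≤ 4 * Real.log (x : ℝ) * (2 * Real.log x) :=
          mul_le_mul_of_nonneg_left hlog2 (by positivity)
      _ = (64 * Real.log x ^ 2) / 8 := by ring
      _ ≤ W / 8 := by linarith
      _ ≤ _ := h11
  linarith

/-- **sieving by the primes up to `n ^ t`** -/
theorem pow_hits : ∃ C c : ℝ, 0 < C ∧ 0 < c ∧ C * c ≤ 1 / 4 ∧ ∀ t : ℝ, 0 < t → t ≤ c →
    ∀ {Ω : Type} {m0 : MeasurableSpace Ω} (μ : Measure Ω)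
    [IsProbabilityMeasure μ] (ℱ : Filtration ℕ m0) (A : ℕ → Set Ω) (z : ℕ → ℕ), (∀ n, MeasurableSet[ℱ n] (A n)) →
    Monotone z → (∀ᶠ n : ℕ in atTop, (z n : ℝ) ≤ (n : ℝ) ^ t) → (∀ n, ¬ Free (z n) n → A n = ∅) →
    (∀ᵐ ω ∂μ, Tendsto (fun n : ℕ => dens μ ℱ A n ω * (Real.log n * GG (z (n + 1))))
      (atTop ⊓ 𝓟 {n : ℕ | Free (z (n + 1)) (n + 1)}) (𝓝 1)) →
    ∀ᵐ ω ∂μ, ∀ᶠ x : ℕ in atTop, ∃ r, x < r ∧ (r : ℝ) ≤ x + (x : ℝ) ^ (C * t) ∧ r ∈ {k | ω ∈ A k} := by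
  obtain ⟨C0, K0, hC, hK, hvar⟩ := var_level
  set M : ℕ := 4 * (C0 * C0) + 3 with hM
  have hM0 : (0 : ℝ) < (M : ℝ) + 1 := by positivity
  have e0 : ((M : ℝ) + 1) * (1 / (4 * ((M : ℝ) + 1))) = 1 / 4 := by field_simp
  refine ⟨(M : ℝ) + 1, 1 / (4 * ((M : ℝ) + 1)), hM0, by positivity, e0.le,
    fun t ht0 htc {Ω m0} μ _ ℱ A z hA hz hzt he hd => ?_⟩
  have htM : ((M : ℝ) + 1) * t ≤ 1 / 4 := (mul_le_mul_of_nonneg_left htc hM0.le).trans e0.le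
  have hd' := rg_hd (μ := μ) (ℱ := ℱ) he hd
  have hv : ∀ᵐ ω ∂μ, ∀ᶠ n : ℕ in atTop, (1 / 2 : ℝ) * rg z n ≤ dens μ ℱ A n ω := by
    filter_upwards [hd'] with ω hω
    filter_upwards [hω (1 / 2) (by norm_num)] with n hn
    have := (abs_le.1 hn).1
    linarith
  have h1 := hits (μ := μ) hA (l := fun n => (1 / 2 : ℝ) * rg z n) hv
    (H := fun x => ⌊(x : ℝ) ^ (((M : ℝ) + 1) * t)⌋₊) (c := 2) (by norm_num)
    (sum_pow hz ht0 hzt (hvar C0 le_rfl) hC hM htM)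
  filter_upwards [h1] with ω hω
  filter_upwards [hω] with x hx
  obtain ⟨r, h2, h3, h4⟩ := hx
  refine ⟨r, h2, ?_, h4⟩
  have h5 : ((r : ℕ) : ℝ) ≤ ((x + ⌊(x : ℝ) ^ (((M : ℝ) + 1) * t)⌋₊ : ℕ) : ℝ) := by exact_mod_cast h3
  push_cast at h5
  have h6 : ((⌊(x : ℝ) ^ (((M : ℝ) + 1) * t)⌋₊ : ℕ) : ℝ) ≤ (x : ℝ) ^ (((M : ℝ) + 1) * t) :=
    Nat.floor_le (Real.rpow_nonneg (Nat.cast_nonneg x) _)
  linarith

/-- the consequences for the differences of the square roots -/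
theorem pow_seq {S : Set ℕ} {a : ℝ} (ha : a ≤ 1 / 4)
    (h : ∀ᶠ x : ℕ in atTop, ∃ r, x < r ∧ (r : ℝ) ≤ x + (x : ℝ) ^ a ∧ r ∈ S) :
    S.Infinite ∧ (∀ᶠ n : ℕ in atTop, (mem S (n + 1) : ℝ) - mem S n ≤ (mem S n : ℝ) ^ a) ∧
      (∀ᶠ n : ℕ in atTop, √(mem S (n + 1) : ℝ) - √(mem S n : ℝ) ≤ (mem S n : ℝ) ^ (a - 1 / 2)) ∧
      Tendsto (fun n : ℕ => √(mem S (n + 1) : ℝ) - √(mem S n : ℝ)) atTop (𝓝 0) := by
  have hS : S.Infinite := by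
    refine Set.infinite_of_forall_exists_gt fun a => ?_
    obtain ⟨x, hx, hxa⟩ := (h.and (eventually_ge_atTop a)).exists
    obtain ⟨r, h1, _, h3⟩ := hx
    exact ⟨r, h3, by omega⟩
  have hU : ∀ᶠ n : ℕ in atTop, (mem S (n + 1) : ℝ) - mem S n ≤ (mem S n : ℝ) ^ a := by
    filter_upwards [(mem_tendsto hS).eventually h] with n hn
    obtain ⟨r, hr1, hr2, hr3⟩ := hn
    have h5 : (mem S (n + 1) : ℝ) ≤ r := by exact_mod_cast next_le hS hr3 hr1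
    linarith
  have hV : ∀ᶠ n : ℕ in atTop, √(mem S (n + 1) : ℝ) - √(mem S n : ℝ) ≤ (mem S n : ℝ) ^ (a - 1 / 2) := by
    filter_upwards [hU, (mem_tendsto hS).eventually_gt_atTop 0] with n hn h4
    have hp0 : (0 : ℝ) < mem S n := by exact_mod_cast h4
    have h1 : (mem S n : ℝ) ≤ mem S (n + 1) := by
      exact_mod_cast ((mem_strictMono hS).monotone (Nat.le_succ n))
    have h2 := (two_sqrt hp0 h1).1
    have hs : 0 < √(mem S n : ℝ) := Real.sqrt_pos.2 hp0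
    rw [Real.rpow_sub hp0, ← Real.sqrt_eq_rpow, le_div_iff₀ hs]
    have h5 : 0 ≤ (mem S n : ℝ) ^ a := Real.rpow_nonneg hp0.le _
    nlinarith [Real.sqrt_le_sqrt h1]
  refine ⟨hS, hU, hV, ?_⟩
  have h1 : Tendsto (fun n : ℕ => (mem S n : ℝ) ^ (a - 1 / 2)) atTop (𝓝 0) := by
    have h2 := (tendsto_rpow_neg_atTop (show 0 < 1 / 2 - a by linarith)).comp
      (tendsto_natCast_atTop_atTop.comp (mem_tendsto hS))
    refine h2.congr fun n => ?_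
    simp only [Function.comp_apply]
    congr 1
    ring
  refine squeeze_zero' (Eventually.of_forall fun n => ?_) hV h1
  have h1 : (mem S n : ℝ) ≤ mem S (n + 1) := by
    exact_mod_cast ((mem_strictMono hS).monotone (Nat.le_succ n))
  linarith [Real.sqrt_le_sqrt h1]

end Pool.Agent.N317.SL
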