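import Mathlib
import Pool.Agent.N317.SL.Poly

set_option autoImplicit false
set_option linter.unusedSectionVars false

/-! # Counts in windows in sieved models -/

open MeasureTheory Filter Set
open scoped ENNReal Topology

namespace Pool.Agent.N317.SL

open Pool.Agent.R528.RM Pool.Agent.N732.GV Pool.Agent.N740.HK

/-- the number of the members of `S` in `(x, x + H]` -/
noncomputable def wcount (S : Set ℕ) (x H : ℕ) : ℕ := {m : ℕ | m ∈ S ∧ x < m ∧ m ≤ x + H}.ncard

lemma wcount_eq {Ω : Type} (A : ℕ → Set Ω) (ω : Ω) (x H : ℕ) :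
    (wcount {k | ω ∈ A k} x H : ℝ) = ∑ m ∈ Finset.Ioc x (x + H), J1 A m ω := by
  classical
  have e : {m : ℕ | m ∈ {k | ω ∈ A k} ∧ x < m ∧ m ≤ x + H} =
      ((Finset.Ioc x (x + H)).filter (fun m => ω ∈ A m) : Finset ℕ) := by
    ext m
    simp only [Set.mem_ofPred_eq, Finset.coe_filter, Finset.mem_Ioc]
    tauto
  unfold wcount
  rw [e, Set.ncard_coe_finset, Finset.card_filter]
  push_cast
  refine Finset.sum_congr rfl fun m _ => ?_
  unfold J1
  by_cases h : ω ∈ A m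
  · rw [if_pos h, Set.indicator_of_mem h]
  · rw [if_neg h, Set.indicator_of_notMem h]

/-- **windows of length at least `x ^ δ`** -/
theorem windows_law {Ω : Type} {m0 : MeasurableSpace Ω} (μ : Measure Ω) [IsProbabilityMeasure μ]
    (ℱ : Filtration ℕ m0) (A : ℕ → Set Ω) (z : ℕ → ℕ) (hA : ∀ n, MeasurableSet[ℱ n] (A n)) (hz : Monotone z)
    {κ : ℝ} (hzκ : ∀ᶠ n : ℕ in atTop, (z n : ℝ) ≤ Real.log n ^ κ) (he : ∀ n, ¬ Free (z n) n → A n = ∅)
    (hd : ∀ᵐ ω ∂μ, Tendsto (fun n : ℕ => dens μ ℱ A n ω * (Real.log n * GG (z (n + 1))))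
      (atTop ⊓ 𝓟 {n : ℕ | Free (z (n + 1)) (n + 1)}) (𝓝 1)) :
    ∀ᵐ ω ∂μ, ∀ δ : ℝ, 0 < δ → ∀ ε : ℝ, 0 < ε → ∀ᶠ x : ℕ in atTop, ∀ H : ℕ, (x : ℝ) ^ δ ≤ H → H ≤ x →
      |(wcount {k | ω ∈ A k} x H : ℝ) * Real.log x / H - 1| ≤ ε := by
  filter_upwards [poly_windows μ ℱ A z hA hz hzκ he hd] with ω hω
  intro δ hδ ε hε
  filter_upwards [hω δ hδ ε hε] with x hx H h1 h2
  rw [wcount_eq]
  exact hx H h1 h2

/-- the law along a sequence of windows -/
lemma seq_windows {S : Set ℕ} {δ : ℝ} (hlaw : ∀ ε : ℝ, 0 < ε → ∀ᶠ x : ℕ in atTop, ∀ H : ℕ, (x : ℝ) ^ δ ≤ H → H ≤ x →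
      |(wcount S x H : ℝ) * Real.log x / H - 1| ≤ ε) {x H : ℕ → ℕ} (hx : Tendsto x atTop atTop)
    (hH : ∀ᶠ n in atTop, (x n : ℝ) ^ δ ≤ H n ∧ H n ≤ x n) :
    Tendsto (fun n => (wcount S (x n) (H n) : ℝ) * Real.log (x n) / H n) atTop (𝓝 1) := by
  rw [Metric.tendsto_nhds]
  intro ε hε
  filter_upwards [hx.eventually (hlaw (ε / 2) (by positivity)), hH] with n h1 h2
  have h3 := h1 (H n) h2.1 h2.2
  rw [Real.dist_eq]
  linarith

lemma wcount_anti {S : Set ℕ} {a b x H : ℕ} (h1 : x ≤ a) (h2 : b ≤ x + H) :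
    ({m : ℕ | m ∈ S ∧ a < m ∧ m ≤ b} : Set ℕ) ⊆ {m : ℕ | m ∈ S ∧ x < m ∧ m ≤ x + H} := by
  rintro m ⟨h3, h4, h5⟩
  exact ⟨h3, by omega, by omega⟩

/-- closed windows -/
lemma closed_window (S : Set ℕ) (x H : ℕ) :
    wcount S x H ≤ {m : ℕ | m ∈ S ∧ x ≤ m ∧ m ≤ x + H}.ncard ∧
      {m : ℕ | m ∈ S ∧ x ≤ m ∧ m ≤ x + H}.ncard ≤ wcount S x H + 1 := by
  have hfin : ({m : ℕ | m ∈ S ∧ x ≤ m ∧ m ≤ x + H}).Finite :=
    (Set.finite_Icc x (x + H)).subset fun m hm => ⟨hm.2.1, hm.2.2⟩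
  have hfin2 : ({m : ℕ | m ∈ S ∧ x < m ∧ m ≤ x + H}).Finite :=
    hfin.subset fun m hm => ⟨hm.1, hm.2.1.le, hm.2.2⟩
  constructor
  · exact Set.ncard_le_ncard (fun m hm => ⟨hm.1, hm.2.1.le, hm.2.2⟩) hfin
  · have hsub : {m : ℕ | m ∈ S ∧ x ≤ m ∧ m ≤ x + H} ⊆ insert x {m : ℕ | m ∈ S ∧ x < m ∧ m ≤ x + H} := by
      rintro m ⟨h1, h2, h3⟩
      rcases h2.lt_or_eq with h4 | h4
      · exact Or.inr ⟨h1, h4, h3⟩
      · exact Or.inl h4.symm
    exact (Set.ncard_le_ncard hsub (hfin2.insert x)).trans (Set.ncard_insert_le _ _)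

/-- from windows to closed windows, with `2 log n` for `log x` -/
lemma closed_asymp {S : Set ℕ} {x : ℕ → ℕ}
    (hw : Tendsto (fun n => (wcount S (x n) n : ℝ) * Real.log (x n) / n) atTop (𝓝 1))
    (hlog : Tendsto (fun n : ℕ => 2 * Real.log n / Real.log (x n)) atTop (𝓝 1))
    (hx : ∀ᶠ n in atTop, 0 < Real.log (x n)) {c : ℕ → ℕ}
    (hc : ∀ n, wcount S (x n) n ≤ c n ∧ c n ≤ wcount S (x n) n + 1) :
    Tendsto (fun n : ℕ => 2 * (c n : ℝ) * Real.log n / n) atTop (𝓝 1) := by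
  have h1 := hw.mul hlog
  rw [mul_one] at h1
  have h2 : Tendsto (fun n : ℕ => 2 * (Real.log n / n)) atTop (𝓝 0) := by
    have h3 := (isLittleO_log_rpow_rpow_atTop 1 (show (0 : ℝ) < 1 by norm_num)).tendsto_div_nhds_zero
    simp only [Real.rpow_one] at h3
    have h4 := (h3.comp tendsto_natCast_atTop_atTop).const_mul 2
    rw [mul_zero] at h4
    exact h4
  have h3 := h1.add h2
  rw [add_zero] at h3
  refine tendsto_of_tendsto_of_tendsto_of_le_of_le' h1 h3 ?_ ?_
  · filter_upwards [hx, eventually_gt_atTop 0] with n hn hn0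
    have hn' : (0 : ℝ) < n := by exact_mod_cast hn0
    have h4 : (wcount S (x n) n : ℝ) ≤ c n := by exact_mod_cast (hc n).1
    have e : (wcount S (x n) n : ℝ) * Real.log (x n) / n * (2 * Real.log n / Real.log (x n)) =
        2 * (wcount S (x n) n : ℝ) * Real.log n / n := by
      field_simp
    rw [e]
    apply div_le_div_of_nonneg_right _ hn'.le
    exact mul_le_mul_of_nonneg_right (by linarith) (Real.log_natCast_nonneg n)
  · filter_upwards [hx, eventually_gt_atTop 0] with n hn hn0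
    have hn' : (0 : ℝ) < n := by exact_mod_cast hn0
    have h4 : (c n : ℝ) ≤ (wcount S (x n) n : ℝ) + 1 := by exact_mod_cast (hc n).2
    have e : (wcount S (x n) n : ℝ) * Real.log (x n) / n * (2 * Real.log n / Real.log (x n)) + 2 * (Real.log n / n) =
        2 * ((wcount S (x n) n : ℝ) + 1) * Real.log n / n := by
      field_simp
    rw [e]
    apply div_le_div_of_nonneg_right _ hn'.le
    exact mul_le_mul_of_nonneg_right (by linarith) (Real.log_natCast_nonneg n)

/-- both intervals of Oppermann -/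
theorem oppermann_law {S : Set ℕ} (hlaw : ∀ δ : ℝ, 0 < δ → ∀ ε : ℝ, 0 < ε → ∀ᶠ x : ℕ in atTop, ∀ H : ℕ,
      (x : ℝ) ^ δ ≤ H → H ≤ x → |(wcount S x H : ℝ) * Real.log x / H - 1| ≤ ε) :
    Tendsto (fun n : ℕ => 2 * ({m : ℕ | m ∈ S ∧ n ^ 2 - n ≤ m ∧ m ≤ n ^ 2}.ncard : ℝ) * Real.log n / n) atTop (𝓝 1) ∧
    Tendsto (fun n : ℕ => 2 * ({m : ℕ | m ∈ S ∧ n ^ 2 ≤ m ∧ m ≤ n ^ 2 + n}.ncard : ℝ) * Real.log n / n) atTop (𝓝 1) := by
  have hl := hlaw (1 / 2) (by norm_num)
  have hsq : Tendsto (fun n : ℕ => n ^ 2) atTop atTop := tendsto_pow_atTop (by norm_num)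
  have hsub : ∀ n : ℕ, n ≤ n ^ 2 := fun n => by nlinarith [Nat.zero_le n, sq_nonneg ((n : ℤ) - 1), Nat.le_self_pow (two_ne_zero) n]
  have hxn : Tendsto (fun n : ℕ => n ^ 2 - n) atTop atTop := by
    refine tendsto_atTop_mono' atTop ?_ tendsto_id
    filter_upwards [eventually_ge_atTop 2] with n hn
    simp only [id]
    have : 2 * n ≤ n ^ 2 := by nlinarith
    omega
  constructor
  · have h1 := seq_windows (x := fun n => n ^ 2 - n) (H := fun n => n) hl hxn (by
      filter_upwards [eventually_ge_atTop 2] with n hn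
      constructor
      · have h2 : ((n ^ 2 - n : ℕ) : ℝ) ≤ (n : ℝ) ^ 2 := by
          have : n ^ 2 - n ≤ n ^ 2 := Nat.sub_le _ _
          exact_mod_cast this
        rw [← Real.sqrt_eq_rpow]
        exact (Real.sqrt_le_sqrt h2).trans (by rw [Real.sqrt_sq (Nat.cast_nonneg n)])
      · have : 2 * n ≤ n ^ 2 := by nlinarith
        omega)
    have hlog : Tendsto (fun n : ℕ => 2 * Real.log n / Real.log ((n ^ 2 - n : ℕ) : ℝ)) atTop (𝓝 1) := by
      -- log (n ^ 2 - n) = 2 log n + log (1 - 1 / n)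
      have h2 : Tendsto (fun n : ℕ => Real.log (1 - 1 / (n : ℝ)) / (2 * Real.log n)) atTop (𝓝 0) := by
        have h3 : Tendsto (fun n : ℕ => Real.log (1 - 1 / (n : ℝ))) atTop (𝓝 (Real.log (1 - 0))) := by
          have h4 : Tendsto (fun n : ℕ => 1 - 1 / (n : ℝ)) atTop (𝓝 (1 - 0)) :=
            (tendsto_one_div_atTop_nhds_zero_nat (𝕜 := ℝ)).const_sub 1
          exact (Real.continuousAt_log (by norm_num)).tendsto.comp h4
        exact h3.div_atTop (tendsto_logN.const_mul_atTop (by norm_num))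
      have h3 := (h2.const_add 1).inv₀ (by norm_num)
      rw [add_zero, inv_one] at h3
      refine h3.congr' ?_
      filter_upwards [eventually_ge_atTop 2, tendsto_logN.eventually_gt_atTop 0] with n hn hlg
      have hn' : (2 : ℝ) ≤ n := by exact_mod_cast hn
      have h4 : (0 : ℝ) < 1 - 1 / (n : ℝ) := by
        have : 1 / (n : ℝ) < 1 := by
          rw [div_lt_one (by linarith)]
          linarith
        linarith
      have e : ((n ^ 2 - n : ℕ) : ℝ) = (n : ℝ) ^ 2 * (1 - 1 / n) := by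
        rw [Nat.cast_sub (hsub n)]
        push_cast
        field_simp
      rw [e, Real.log_mul (by positivity) h4.ne', Real.log_pow]
      push_cast
      have h5 : 0 < 2 * Real.log n + Real.log (1 - 1 / n) := by
        rw [show 2 * Real.log (n : ℝ) + Real.log (1 - 1 / (n : ℝ)) = Real.log ((n : ℝ) ^ 2 * (1 - 1 / n)) by
          rw [Real.log_mul (by positivity) h4.ne', Real.log_pow]; norm_num]
        apply Real.log_pos
        have : (n : ℝ) ^ 2 * (1 - 1 / n) = n ^ 2 - n := by field_simp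
        rw [this]
        nlinarith
      field_simp
    refine closed_asymp h1 hlog ?_ (fun n => ?_)
    · filter_upwards [(tendsto_logN.comp hxn).eventually_gt_atTop 0] with n hn
      exact hn
    · have h2 := closed_window S (n ^ 2 - n) n
      rw [Nat.sub_add_cancel (hsub n)] at h2
      exact h2
  · have h1 := seq_windows (x := fun n => n ^ 2) (H := fun n => n) hl hsq (by
      filter_upwards with n
      constructor
      · push_cast
        rw [← Real.sqrt_eq_rpow, Real.sqrt_sq (Nat.cast_nonneg n)]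
      · exact hsub n)
    have hlog : Tendsto (fun n : ℕ => 2 * Real.log n / Real.log ((n ^ 2 : ℕ) : ℝ)) atTop (𝓝 1) := by
      refine (tendsto_const_nhds (x := (1 : ℝ))).congr' ?_
      filter_upwards [tendsto_logN.eventually_gt_atTop 0] with n hn
      push_cast
      rw [Real.log_pow]
      push_cast
      field_simp
    refine closed_asymp h1 hlog ?_ (fun n => closed_window S (n ^ 2) n)
    filter_upwards [(tendsto_logN.comp hsq).eventually_gt_atTop 0] with n hn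
    exact hn

/-- between consecutive odd squares -/
theorem odd_squares_law {S : Set ℕ} (hlaw : ∀ δ : ℝ, 0 < δ → ∀ ε : ℝ, 0 < ε → ∀ᶠ x : ℕ in atTop, ∀ H : ℕ,
      (x : ℝ) ^ δ ≤ H → H ≤ x → |(wcount S x H : ℝ) * Real.log x / H - 1| ≤ ε) :
    Tendsto (fun k : ℕ => ({m : ℕ | m ∈ S ∧ (2 * k - 1) ^ 2 < m ∧ m < (2 * k + 1) ^ 2}.ncard : ℝ) * Real.log k / (4 * k))
      atTop (𝓝 1) := by
  have hl := hlaw (1 / 2) (by norm_num)
  have hx : Tendsto (fun k : ℕ => (2 * k - 1) ^ 2) atTop atTop := by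
    refine tendsto_atTop_mono' atTop ?_ tendsto_id
    filter_upwards [eventually_ge_atTop 1] with k hk
    simp only [id]
    have h1 : k ≤ 2 * k - 1 := by omega
    exact h1.trans (Nat.le_self_pow two_ne_zero _)
  have h1 := seq_windows (x := fun k => (2 * k - 1) ^ 2) (H := fun k => 8 * k - 1) hl hx (by
    filter_upwards [eventually_ge_atTop 3] with k hk
    constructor
    · push_cast
      rw [← Real.sqrt_eq_rpow, Real.sqrt_sq (Nat.cast_nonneg _)]
      have : 2 * k - 1 ≤ 8 * k - 1 := by omega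
      exact_mod_cast this
    · obtain ⟨l, rfl⟩ : ∃ l, k = l + 3 := ⟨k - 3, by omega⟩
      have e : 2 * (l + 3) - 1 = 2 * l + 5 := by omega
      rw [e]
      have : 8 * (l + 3) - 1 = 8 * l + 23 := by omega
      rw [this]
      nlinarith)
  have hcount : ∀ k : ℕ, 1 ≤ k → {m : ℕ | m ∈ S ∧ (2 * k - 1) ^ 2 < m ∧ m < (2 * k + 1) ^ 2}.ncard =
      wcount S ((2 * k - 1) ^ 2) (8 * k - 1) := by
    intro k hk
    have e : (2 * k - 1) ^ 2 + 8 * k = (2 * k + 1) ^ 2 := by
      obtain ⟨l, rfl⟩ : ∃ l, k = l + 1 := ⟨k - 1, by omega⟩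
      have e : 2 * (l + 1) - 1 = 2 * l + 1 := by omega
      rw [e]
      ring
    unfold wcount
    congr 1
    ext m
    simp only [Set.mem_ofPred_eq]
    constructor
    · rintro ⟨h1, h2, h3⟩
      exact ⟨h1, h2, by omega⟩
    · rintro ⟨h1, h2, h3⟩
      exact ⟨h1, h2, by omega⟩
  -- the ratio of the normalizations
  have hR : Tendsto (fun k : ℕ => ((8 * k - 1 : ℕ) : ℝ) * Real.log k / (4 * k * Real.log (((2 * k - 1) ^ 2 : ℕ) : ℝ)))
      atTop (𝓝 1) := by
    have h2 : Tendsto (fun k : ℕ => 1 - 1 / 8 * (1 / (k : ℝ))) atTop (𝓝 (1 - 1 / 8 * 0)) :=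
      ((tendsto_one_div_atTop_nhds_zero_nat (𝕜 := ℝ)).const_mul (1 / 8)).const_sub 1
    rw [mul_zero, sub_zero] at h2
    have h3 : Tendsto (fun k : ℕ => Real.log (2 - 1 / (k : ℝ)) / Real.log k) atTop (𝓝 0) := by
      have h4 : Tendsto (fun k : ℕ => Real.log (2 - 1 / (k : ℝ))) atTop (𝓝 (Real.log (2 - 0))) := by
        have h5 : Tendsto (fun k : ℕ => 2 - 1 / (k : ℝ)) atTop (𝓝 (2 - 0)) :=
          (tendsto_one_div_atTop_nhds_zero_nat (𝕜 := ℝ)).const_sub 2
        exact (Real.continuousAt_log (by norm_num)).tendsto.comp h5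
      exact h4.div_atTop tendsto_logN
    have h4 := (h3.const_add 1).inv₀ (by norm_num)
    rw [add_zero, inv_one] at h4
    have h5 := h2.mul h4
    rw [mul_one] at h5
    refine h5.congr' ?_
    filter_upwards [eventually_ge_atTop 2, tendsto_logN.eventually_gt_atTop 0] with k hk hlg
    have hk' : (2 : ℝ) ≤ k := by exact_mod_cast hk
    have h6 : (1 : ℝ) < 2 - 1 / (k : ℝ) := by
      have : 1 / (k : ℝ) < 1 := by
        rw [div_lt_one (by linarith)]
        linarith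
      linarith
    have h7 : 0 < Real.log (2 - 1 / (k : ℝ)) := Real.log_pos h6
    have e1 : (((2 * k - 1) ^ 2 : ℕ) : ℝ) = ((k : ℝ) * (2 - 1 / k)) ^ 2 := by
      rw [Nat.cast_pow, Nat.cast_sub (by omega)]
      push_cast
      congr 1
      field_simp
    have e2 : ((8 * k - 1 : ℕ) : ℝ) = 8 * k - 1 := by
      rw [Nat.cast_sub (by omega)]
      push_cast
      ring
    rw [e1, e2, Real.log_pow, Real.log_mul (by positivity) (by linarith)]
    push_cast
    field_simp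
    ring
  have h2 := h1.mul hR
  rw [mul_one] at h2
  refine h2.congr' ?_
  filter_upwards [eventually_ge_atTop 2, (tendsto_logN.comp hx).eventually_gt_atTop 0] with k hk hlg
  simp only [Function.comp] at hlg
  rw [hcount k (by omega)]
  have h8 : (0 : ℝ) < ((8 * k - 1 : ℕ) : ℝ) := by
    have : 0 < 8 * k - 1 := by omega
    exact_mod_cast this
  have hk' : (0 : ℝ) < k := by
    have : 0 < k := by omega
    exact_mod_cast this
  field_simp

end Pool.Agent.N317.SL
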